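import Mathlib
import Pool.Agent.Lib.MP_8bcb9d_co.W.Def

/-!
# Points and internal sets over the hyperreals
-/

set_option autoImplicit false

namespace Pool.Agent.Lib.MP_8bcb9d_co.H

open Filter Hyperreal Pool.Agent.Lib.MP_8bcb9d_co.W

/-- the ultrafilter -/
noncomputable abbrev UH : Ultrafilter ℕ := hyperfilter ℕ

/-- the point of a sequence of points -/
noncomputable def pt (f : ℕ → ℝ × ℝ) : ℝ* × ℝ* :=
  (ofSeq fun n => (f n).1, ofSeq fun n => (f n).2)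

/-- the internal set of a sequence of finite sets -/
def ist (S : ℕ → Finset (ℝ × ℝ)) : Set (ℝ* × ℝ*) :=
  {p | ∃ f : ℕ → ℝ × ℝ, (∀ᶠ n in (UH : Filter ℕ), f n ∈ S n) ∧ p = pt f}

/-- the internal sets -/
def II : Set (Set (ℝ* × ℝ*)) := {S | ∃ T : ℕ → Finset (ℝ × ℝ), S = ist T}

theorem ofSeq_eq {f g : ℕ → ℝ} : ofSeq f = ofSeq g ↔ ∀ᶠ n in (UH : Filter ℕ), f n = g n :=
  Germ.coe_eq

theorem ofSeq_le {f g : ℕ → ℝ} : ofSeq f ≤ ofSeq g ↔ ∀ᶠ n in (UH : Filter ℕ), f n ≤ g n :=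
  ofSeq_le_ofSeq

theorem ofSeq_lt {f g : ℕ → ℝ} : ofSeq f < ofSeq g ↔ ∀ᶠ n in (UH : Filter ℕ), f n < g n :=
  ofSeq_lt_ofSeq

theorem exists_ofSeq (x : ℝ*) : ∃ f : ℕ → ℝ, ofSeq f = x := ofSeq_surjective x

theorem exists_pt (p : ℝ* × ℝ*) : ∃ f : ℕ → ℝ × ℝ, p = pt f := by
  obtain ⟨a, ha⟩ := exists_ofSeq p.1
  obtain ⟨b, hb⟩ := exists_ofSeq p.2
  exact ⟨fun n => (a n, b n), Prod.ext ha.symm hb.symm⟩

theorem pt_eq {f g : ℕ → ℝ × ℝ} : pt f = pt g ↔ ∀ᶠ n in (UH : Filter ℕ), f n = g n := by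
  unfold pt
  rw [Prod.mk.injEq, ofSeq_eq, ofSeq_eq, ← eventually_and]
  constructor
  · intro h
    filter_upwards [h] with n hn using Prod.ext hn.1 hn.2
  · intro h
    filter_upwards [h] with n hn
    rw [hn]
    exact ⟨rfl, rfl⟩

theorem pt_ne {f g : ℕ → ℝ × ℝ} : pt f ≠ pt g ↔ ∀ᶠ n in (UH : Filter ℕ), f n ≠ g n := by
  rw [Ne, pt_eq, ← Ultrafilter.eventually_not]

theorem mem_ist {S : ℕ → Finset (ℝ × ℝ)} {f : ℕ → ℝ × ℝ} :
    pt f ∈ ist S ↔ ∀ᶠ n in (UH : Filter ℕ), f n ∈ S n := by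
  constructor
  · rintro ⟨g, hg, h⟩
    filter_upwards [hg, pt_eq.1 h] with n h1 h2
    rw [h2]
    exact h1
  · intro h
    exact ⟨f, h, rfl⟩

theorem not_mem_ist {S : ℕ → Finset (ℝ × ℝ)} {f : ℕ → ℝ × ℝ} :
    pt f ∉ ist S ↔ ∀ᶠ n in (UH : Filter ℕ), f n ∉ S n := by
  rw [mem_ist, ← Ultrafilter.eventually_not]

theorem ofSeq_zero : ofSeq (fun _ => (0 : ℝ)) = 0 := rfl

theorem ofSeq_one : ofSeq (fun _ => (1 : ℝ)) = 1 := rfl

theorem ofSeq_add (f g : ℕ → ℝ) : ofSeq (fun n => f n + g n) = ofSeq f + ofSeq g := rfl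

theorem ofSeq_sub (f g : ℕ → ℝ) : ofSeq (fun n => f n - g n) = ofSeq f - ofSeq g := rfl

theorem ofSeq_mul (f g : ℕ → ℝ) : ofSeq (fun n => f n * g n) = ofSeq f * ofSeq g := rfl

theorem ofSeq_div (f g : ℕ → ℝ) : ofSeq (fun n => f n / g n) = ofSeq f / ofSeq g := rfl

theorem ofSeq_max (f g : ℕ → ℝ) : ofSeq (fun n => max (f n) (g n)) = max (ofSeq f) (ofSeq g) := by
  rcases le_total (ofSeq f) (ofSeq g) with h | h
  · rw [max_eq_right h, ofSeq_eq]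
    filter_upwards [ofSeq_le.1 h] with n hn using max_eq_right hn
  · rw [max_eq_left h, ofSeq_eq]
    filter_upwards [ofSeq_le.1 h] with n hn using max_eq_left hn

theorem ofSeq_abs (f : ℕ → ℝ) : ofSeq (fun n => |f n|) = |ofSeq f| := by
  rcases le_total 0 (ofSeq f) with h | h
  · rw [abs_of_nonneg h, ofSeq_eq]
    have h' : ofSeq (fun _ => (0 : ℝ)) ≤ ofSeq f := h
    filter_upwards [ofSeq_le.1 h'] with n hn using abs_of_nonneg hn
  · rw [abs_of_nonpos h]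
    have h' : ofSeq f ≤ ofSeq (fun _ => (0 : ℝ)) := h
    have h2 : -ofSeq f = ofSeq (fun n => -f n) := rfl
    rw [h2, ofSeq_eq]
    filter_upwards [ofSeq_le.1 h'] with n hn using abs_of_nonpos hn

theorem pt_sub (f g : ℕ → ℝ × ℝ) : pt f - pt g = pt (fun n => f n - g n) := rfl

theorem pt_add (f g : ℕ → ℝ × ℝ) : pt f + pt g = pt (fun n => f n + g n) := rfl

theorem cr_pt (f g : ℕ → ℝ × ℝ) : cr (pt f) (pt g) = ofSeq (fun n => cr (f n) (g n)) := rfl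

theorem nrm_pt (f : ℕ → ℝ × ℝ) : nrm (pt f) = ofSeq (fun n => nrm (f n)) := by
  unfold nrm pt
  rw [ofSeq_max, ofSeq_abs, ofSeq_abs]

theorem lin_pt (a b c : ℕ → ℝ) (f : ℕ → ℝ × ℝ) :
    lin (ofSeq a, ofSeq b, ofSeq c) (pt f) = ofSeq (fun n => lin (a n, b n, c n) (f n)) := rfl

theorem natCast_ofSeq (m : ℕ) : (m : ℝ*) = ofSeq (fun _ => (m : ℝ)) := rfl

theorem ist_nonempty {S : ℕ → Finset (ℝ × ℝ)} :
    (ist S).Nonempty ↔ ∀ᶠ n in (UH : Filter ℕ), (S n).Nonempty := by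
  constructor
  · rintro ⟨p, f, hf, -⟩
    filter_upwards [hf] with n hn using ⟨_, hn⟩
  · intro h
    have h1 : ∀ n, ∃ x : ℝ × ℝ, (S n).Nonempty → x ∈ S n := by
      intro n
      by_cases h : (S n).Nonempty
      · obtain ⟨x, hx⟩ := h
        exact ⟨x, fun _ => hx⟩
      · exact ⟨0, fun h' => absurd h' h⟩
    choose f hf using h1
    exact ⟨pt f, f, by filter_upwards [h] with n hn using hf n hn, rfl⟩

/-- choice of a sequence -/
theorem exists_seq {P : ℕ → ℝ × ℝ → Prop} (h : ∀ᶠ n in (UH : Filter ℕ), ∃ x, P n x) :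
    ∃ f : ℕ → ℝ × ℝ, ∀ᶠ n in (UH : Filter ℕ), P n (f n) := by
  have h1 : ∀ n, ∃ x : ℝ × ℝ, (∃ x, P n x) → P n x := by
    intro n
    by_cases h : ∃ x, P n x
    · obtain ⟨x, hx⟩ := h
      exact ⟨x, fun _ => hx⟩
    · exact ⟨0, fun h' => absurd h' h⟩
  choose f hf using h1
  exact ⟨f, by filter_upwards [h] with n hn using hf n hn⟩

/-- choice of a sequence, general type -/
theorem exists_seq' {α : Type*} [Inhabited α] {P : ℕ → α → Prop}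
    (h : ∀ᶠ n in (UH : Filter ℕ), ∃ x, P n x) :
    ∃ f : ℕ → α, ∀ᶠ n in (UH : Filter ℕ), P n (f n) := by
  have h1 : ∀ n, ∃ x : α, (∃ x, P n x) → P n x := by
    intro n
    by_cases h : ∃ x, P n x
    · obtain ⟨x, hx⟩ := h
      exact ⟨x, fun _ => hx⟩
    · exact ⟨default, fun h' => absurd h' h⟩
  choose f hf using h1
  exact ⟨f, by filter_upwards [h] with n hn using hf n hn⟩

theorem ist_subset {S T : ℕ → Finset (ℝ × ℝ)} :
    ist S ⊆ ist T ↔ ∀ᶠ n in (UH : Filter ℕ), S n ⊆ T n := by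
  constructor
  · intro h
    by_contra hcon
    rw [← Ultrafilter.eventually_not] at hcon
    have h1 : ∀ᶠ n in (UH : Filter ℕ), ∃ x, x ∈ S n ∧ x ∉ T n := by
      filter_upwards [hcon] with n hn
      rw [Finset.not_subset] at hn
      exact hn
    obtain ⟨f, hf⟩ := exists_seq h1
    have h2 : pt f ∈ ist T := h (mem_ist.2 (hf.mono fun n hn => hn.1))
    have h3 : pt f ∉ ist T := not_mem_ist.2 (hf.mono fun n hn => hn.2)
    exact h3 h2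
  · intro h p hp
    obtain ⟨f, hf, rfl⟩ := hp
    rw [mem_ist]
    filter_upwards [h, hf] with n h1 h2 using h1 h2

theorem ist_ext {S : ℕ → Finset (ℝ × ℝ)} {A : Set (ℝ* × ℝ*)}
    (h : ∀ f, pt f ∈ A ↔ ∀ᶠ n in (UH : Filter ℕ), f n ∈ S n) : A = ist S := by
  ext p
  obtain ⟨f, rfl⟩ := exists_pt p
  rw [h, mem_ist]

open Classical in
theorem II_half (S : Set (ℝ* × ℝ*)) (hS : S ∈ II) (a b c : ℝ*) :
    {p ∈ S | a * p.1 + b * p.2 ≤ c} ∈ II := by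
  obtain ⟨T, rfl⟩ := hS
  obtain ⟨a, rfl⟩ := exists_ofSeq a
  obtain ⟨b, rfl⟩ := exists_ofSeq b
  obtain ⟨c, rfl⟩ := exists_ofSeq c
  refine ⟨fun n => (T n).filter fun p => a n * p.1 + b n * p.2 ≤ c n, ist_ext ?_⟩
  intro f
  have h1 : (ofSeq a * (pt f).1 + ofSeq b * (pt f).2 ≤ ofSeq c) ↔
      ∀ᶠ n in (UH : Filter ℕ), a n * (f n).1 + b n * (f n).2 ≤ c n :=
    ofSeq_le (f := fun n => a n * (f n).1 + b n * (f n).2) (g := c)
  rw [Set.mem_setOf_eq, mem_ist, h1, ← eventually_and]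
  simp only [Finset.mem_filter]

open Classical in
theorem II_union (S : Set (ℝ* × ℝ*)) (hS : S ∈ II) (T : Set (ℝ* × ℝ*)) (hT : T ∈ II) :
    S ∪ T ∈ II := by
  obtain ⟨A, rfl⟩ := hS
  obtain ⟨B, rfl⟩ := hT
  refine ⟨fun n => A n ∪ B n, ist_ext ?_⟩
  intro f
  rw [Set.mem_union, mem_ist, mem_ist, ← Ultrafilter.eventually_or]
  simp only [Finset.mem_union]

open Classical in
theorem II_diff (S : Set (ℝ* × ℝ*)) (hS : S ∈ II) (T : Set (ℝ* × ℝ*)) (hT : T ∈ II) :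
    S \ T ∈ II := by
  obtain ⟨A, rfl⟩ := hS
  obtain ⟨B, rfl⟩ := hT
  refine ⟨fun n => A n \ B n, ist_ext ?_⟩
  intro f
  rw [Set.mem_diff, mem_ist, not_mem_ist, ← eventually_and]
  simp only [Finset.mem_sdiff]

open Classical in
theorem II_pj (S : Set (ℝ* × ℝ*)) (hS : S ∈ II) (l m n : ℝ* × ℝ* × ℝ*) :
    pj l m n '' S ∈ II := by
  obtain ⟨T, rfl⟩ := hS
  obtain ⟨l1, l2, l3⟩ := l
  obtain ⟨m1, m2, m3⟩ := m
  obtain ⟨n1, n2, n3⟩ := n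
  obtain ⟨l1, rfl⟩ := exists_ofSeq l1
  obtain ⟨l2, rfl⟩ := exists_ofSeq l2
  obtain ⟨l3, rfl⟩ := exists_ofSeq l3
  obtain ⟨m1, rfl⟩ := exists_ofSeq m1
  obtain ⟨m2, rfl⟩ := exists_ofSeq m2
  obtain ⟨m3, rfl⟩ := exists_ofSeq m3
  obtain ⟨n1, rfl⟩ := exists_ofSeq n1
  obtain ⟨n2, rfl⟩ := exists_ofSeq n2
  obtain ⟨n3, rfl⟩ := exists_ofSeq n3
  have hpj : ∀ f : ℕ → ℝ × ℝ, pj (ofSeq l1, ofSeq l2, ofSeq l3) (ofSeq m1, ofSeq m2, ofSeq m3)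
      (ofSeq n1, ofSeq n2, ofSeq n3) (pt f) =
      pt (fun k => pj (l1 k, l2 k, l3 k) (m1 k, m2 k, m3 k) (n1 k, n2 k, n3 k) (f k)) :=
    fun _ => rfl
  refine ⟨fun k => (T k).image
    (fun p => pj (l1 k, l2 k, l3 k) (m1 k, m2 k, m3 k) (n1 k, n2 k, n3 k) p), ist_ext ?_⟩
  intro g
  constructor
  · rintro ⟨p, hp, hpg⟩
    obtain ⟨f, hf, rfl⟩ := hp
    rw [hpj, pt_eq] at hpg
    filter_upwards [hf, hpg] with k h1 h2
    rw [← h2]
    exact Finset.mem_image_of_mem _ h1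
  · intro h
    have h1 : ∀ᶠ k in (UH : Filter ℕ), ∃ x, x ∈ T k ∧
        pj (l1 k, l2 k, l3 k) (m1 k, m2 k, m3 k) (n1 k, n2 k, n3 k) x = g k := by
      filter_upwards [h] with k hk
      obtain ⟨x, hx, hxg⟩ := Finset.mem_image.1 hk
      exact ⟨x, hx, hxg⟩
    obtain ⟨f, hf⟩ := exists_seq h1
    refine ⟨pt f, mem_ist.2 (hf.mono fun n hn => hn.1), ?_⟩
    rw [hpj, pt_eq]
    exact hf.mono fun n hn => hn.2

end Pool.Agent.Lib.MP_8bcb9d_co.H
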