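import Mathlib
import Pool.Agent.Lib.MP_8bcb9d_co.H.H1

/-!
# The value group of the hyperreals
-/

set_option autoImplicit false

namespace Pool.Agent.Lib.MP_8bcb9d_co.H

open Filter Hyperreal Pool.Agent.Lib.MP_8bcb9d_co.W

/-- the value group -/
abbrev GG : Type := AddUnits (ArchimedeanClass ℝ*)

noncomputable example : AddCommGroup GG := inferInstance

noncomputable example : LinearOrder GG := inferInstance

example : IsOrderedAddMonoid GG := inferInstance

theorem isAddUnit_mk {x : ℝ*} (hx : x ≠ 0) : IsAddUnit (ArchimedeanClass.mk x) := by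
  refine IsAddUnit.of_add_eq_zero (ArchimedeanClass.mk x⁻¹) ?_
  rw [← ArchimedeanClass.mk_mul, mul_inv_cancel₀ hx, ArchimedeanClass.mk_one]

open Classical in
/-- the value map -/
noncomputable def vv (x : ℝ*) : GG :=
  if hx : x = 0 then 0 else (isAddUnit_mk hx).addUnit

theorem coe_vv {x : ℝ*} (hx : x ≠ 0) : ((vv x : GG) : ArchimedeanClass ℝ*) =
    ArchimedeanClass.mk x := by
  unfold vv
  rw [dif_neg hx, IsAddUnit.addUnit_spec]

theorem vv_mul (x y : ℝ*) (hx : x ≠ 0) (hy : y ≠ 0) : vv (x * y) = vv x + vv y := by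
  apply AddUnits.ext
  rw [AddUnits.val_add, coe_vv hx, coe_vv hy, coe_vv (mul_ne_zero hx hy),
    ArchimedeanClass.mk_mul]

theorem vv_le (x y : ℝ*) (hx : x ≠ 0) (hy : y ≠ 0) : vv x ≤ vv y ↔ Bd y x := by
  rw [← AddUnits.val_le_val, coe_vv hx, coe_vv hy, ArchimedeanClass.mk_le_mk]
  unfold Bd
  simp only [nsmul_eq_mul]

theorem vv_surj (g : GG) : ∃ x : ℝ*, 0 < x ∧ vv x = g := by
  obtain ⟨x, hx⟩ := ArchimedeanClass.mk_surjective (M := ℝ*) (g : ArchimedeanClass ℝ*)
  have hx0 : x ≠ 0 := by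
    rintro rfl
    obtain ⟨g, h, h1, h2⟩ := g
    simp only at hx
    rw [← hx, ArchimedeanClass.mk_zero, top_add] at h1
    have h3 : (0 : ArchimedeanClass ℝ*) ≠ ⊤ := by
      rw [← ArchimedeanClass.mk_one, Ne, ArchimedeanClass.mk_eq_top_iff]
      exact one_ne_zero
    exact h3 h1.symm
  refine ⟨|x|, abs_pos.2 hx0, ?_⟩
  apply AddUnits.ext
  rw [coe_vv (abs_ne_zero.2 hx0), ArchimedeanClass.mk_abs, hx]

end Pool.Agent.Lib.MP_8bcb9d_co.H
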