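import Mathlib
import Pool.Agent.Lib.MP_8bcb9d_co.H.H1

/-!
# Extremal properties of internal sets
-/

set_option autoImplicit false

namespace Pool.Agent.Lib.MP_8bcb9d_co.H

open Filter Hyperreal Pool.Agent.Lib.MP_8bcb9d_co.W

theorem II_argmin (S : Set (ℝ* × ℝ*)) (hS : S ∈ II) (hne : S.Nonempty) (a b : ℝ*) :
    ∃ p ∈ S, ∀ q ∈ S, a * p.1 + b * p.2 ≤ a * q.1 + b * q.2 := by
  obtain ⟨T, rfl⟩ := hS
  obtain ⟨a, rfl⟩ := exists_ofSeq a
  obtain ⟨b, rfl⟩ := exists_ofSeq b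
  have h1 : ∀ᶠ n in (UH : Filter ℕ), ∃ x, x ∈ T n ∧ ∀ y ∈ T n,
      a n * x.1 + b n * x.2 ≤ a n * y.1 + b n * y.2 := by
    filter_upwards [ist_nonempty.1 hne] with n hn
    obtain ⟨x, hx, hmin⟩ := Finset.exists_min_image (T n) (fun x => a n * x.1 + b n * x.2) hn
    exact ⟨x, hx, hmin⟩
  obtain ⟨f, hf⟩ := exists_seq h1
  refine ⟨pt f, mem_ist.2 (hf.mono fun n hn => hn.1), ?_⟩
  intro q hq
  obtain ⟨g, hg, rfl⟩ := hq
  have h2 : ∀ᶠ n in (UH : Filter ℕ), a n * (f n).1 + b n * (f n).2 ≤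
      a n * (g n).1 + b n * (g n).2 := by
    filter_upwards [hf, hg] with n h1 h2 using h1.2 _ h2
  exact ofSeq_le.2 h2

theorem bridge_fin (S T : Finset (ℝ × ℝ)) (hS : S.Nonempty) (hT : T.Nonempty)
    (hSp : ∀ p ∈ S, 0 < p.2) (hTn : ∀ q ∈ T, q.2 < 0) :
    ∃ p ∈ S, ∃ q ∈ T, ∀ r, r ∈ S ∨ r ∈ T → 0 ≤ cr (p - q) (r - q) := by
  obtain ⟨⟨p, q⟩, hpq, hmax⟩ := Finset.exists_max_image (S ×ˢ T)
    (fun z => (z.1.1 * (-z.2.2) + z.2.1 * z.1.2) / (z.1.2 - z.2.2)) (hS.product hT)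
  rw [Finset.mem_product] at hpq
  obtain ⟨hp, hq⟩ := hpq
  simp only at hp hq hmax
  refine ⟨p, hp, q, hq, ?_⟩
  have hp0 := hSp p hp
  have hq0 := hTn q hq
  have hpq0 : 0 < p.2 - q.2 := by linarith
  rintro r (hr | hr)
  · have hr0 := hSp r hr
    have h1 := hmax (r, q) (Finset.mem_product.2 ⟨hr, hq⟩)
    simp only at h1
    rw [div_le_div_iff₀ (by linarith) hpq0] at h1
    have h2 : 0 ≤ (-q.2) * cr (p - q) (r - q) := by
      simp only [cr, Prod.fst_sub, Prod.snd_sub]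
      nlinarith [h1]
    exact nonneg_of_mul_nonneg_right h2 (by linarith)
  · have hr0 := hTn r hr
    have h1 := hmax (p, r) (Finset.mem_product.2 ⟨hp, hr⟩)
    simp only at h1
    rw [div_le_div_iff₀ (by linarith) hpq0] at h1
    have h2 : 0 ≤ p.2 * cr (p - q) (r - q) := by
      simp only [cr, Prod.fst_sub, Prod.snd_sub]
      nlinarith [h1]
    exact nonneg_of_mul_nonneg_right h2 hp0

theorem II_bridge (S : Set (ℝ* × ℝ*)) (hS : S ∈ II) (T : Set (ℝ* × ℝ*)) (hT : T ∈ II)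
    (hSn : S.Nonempty) (hTn : T.Nonempty) (hSp : ∀ p ∈ S, 0 < p.2) (hTm : ∀ q ∈ T, q.2 < 0) :
    ∃ p ∈ S, ∃ q ∈ T, ∀ r, r ∈ S ∨ r ∈ T → 0 ≤ cr (p - q) (r - q) := by
  obtain ⟨A, rfl⟩ := hS
  obtain ⟨B, rfl⟩ := hT
  have hA : ∀ᶠ n in (UH : Filter ℕ), ∀ p ∈ A n, 0 < p.2 := by
    by_contra hcon
    rw [← Ultrafilter.eventually_not] at hcon
    have h1 : ∀ᶠ n in (UH : Filter ℕ), ∃ x, x ∈ A n ∧ x.2 ≤ 0 := by
      filter_upwards [hcon] with n hn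
      push Not at hn
      exact hn
    obtain ⟨f, hf⟩ := exists_seq h1
    have h2 := hSp (pt f) (mem_ist.2 (hf.mono fun n hn => hn.1))
    have h3 : (pt f).2 ≤ 0 := ofSeq_le.2 (hf.mono fun n hn => hn.2)
    exact absurd h2 (not_lt.2 h3)
  have hB : ∀ᶠ n in (UH : Filter ℕ), ∀ p ∈ B n, p.2 < 0 := by
    by_contra hcon
    rw [← Ultrafilter.eventually_not] at hcon
    have h1 : ∀ᶠ n in (UH : Filter ℕ), ∃ x, x ∈ B n ∧ 0 ≤ x.2 := by
      filter_upwards [hcon] with n hn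
      push Not at hn
      exact hn
    obtain ⟨f, hf⟩ := exists_seq h1
    have h2 := hTm (pt f) (mem_ist.2 (hf.mono fun n hn => hn.1))
    have h3 : 0 ≤ (pt f).2 := ofSeq_le.2 (hf.mono fun n hn => hn.2)
    exact absurd h2 (not_lt.2 h3)
  have h1 : ∀ᶠ n in (UH : Filter ℕ), ∃ z : (ℝ × ℝ) × (ℝ × ℝ), z.1 ∈ A n ∧ z.2 ∈ B n ∧
      ∀ r, r ∈ A n ∨ r ∈ B n → 0 ≤ cr (z.1 - z.2) (r - z.2) := by
    filter_upwards [hA, hB, ist_nonempty.1 hSn, ist_nonempty.1 hTn] with n h1 h2 h3 h4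
    obtain ⟨p, hp, q, hq, h⟩ := bridge_fin (A n) (B n) h3 h4 h1 h2
    exact ⟨(p, q), hp, hq, h⟩
  obtain ⟨f, hf⟩ := exists_seq' h1
  refine ⟨pt (fun n => (f n).1), mem_ist.2 (hf.mono fun n hn => hn.1),
    pt (fun n => (f n).2), mem_ist.2 (hf.mono fun n hn => hn.2.1), ?_⟩
  intro r hr
  obtain ⟨g, rfl⟩ := exists_pt r
  have hr' : ∀ᶠ n in (UH : Filter ℕ), g n ∈ A n ∨ g n ∈ B n := by
    rcases hr with hr | hr
    · filter_upwards [mem_ist.1 hr] with n hn using Or.inl hn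
    · filter_upwards [mem_ist.1 hr] with n hn using Or.inr hn
  rw [pt_sub, pt_sub, cr_pt, ← ofSeq_zero, ofSeq_le]
  filter_upwards [hr', hf] with n h1 h2 using h2.2.2 _ h1

/-- least element of a total transitive relation -/
theorem exists_least {α : Type*} (s : Finset α) (hs : s.Nonempty) (r : α → α → Prop)
    (htot : ∀ x ∈ s, ∀ y ∈ s, r x y ∨ r y x)
    (htr : ∀ x ∈ s, ∀ y ∈ s, ∀ z ∈ s, r x y → r y z → r x z) :
    ∃ m ∈ s, ∀ x ∈ s, r m x := by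
  classical
  induction hs using Finset.Nonempty.cons_induction with
  | singleton a =>
    refine ⟨a, Finset.mem_singleton_self a, ?_⟩
    intro x hx
    rw [Finset.mem_singleton] at hx
    subst hx
    rcases htot x (Finset.mem_singleton_self x) x (Finset.mem_singleton_self x) with h | h <;>
      exact h
  | cons a s ha hs ih =>
    obtain ⟨m, hm, hmin⟩ := ih (fun x hx y hy => htot x (Finset.mem_cons_of_mem hx) y
      (Finset.mem_cons_of_mem hy)) (fun x hx y hy z hz => htr x (Finset.mem_cons_of_mem hx) y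
      (Finset.mem_cons_of_mem hy) z (Finset.mem_cons_of_mem hz))
    have haa : a ∈ Finset.cons a s ha := Finset.mem_cons_self a s
    have hmm : m ∈ Finset.cons a s ha := Finset.mem_cons_of_mem hm
    rcases htot a haa m hmm with h | h
    · refine ⟨a, haa, ?_⟩
      intro x hx
      rcases Finset.mem_cons.1 hx with rfl | hx'
      · rcases htot x haa x haa with h' | h' <;> exact h'
      · exact htr a haa m hmm x hx h (hmin x hx')
    · refine ⟨m, hmm, ?_⟩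
      intro x hx
      rcases Finset.mem_cons.1 hx with rfl | hx'
      · exact h
      · exact hmin x hx'

/-- vectors of the half open lower half plane -/
def Low (v : ℝ × ℝ) : Prop := v.2 < 0 ∨ (v.2 = 0 ∧ v.1 < 0)

theorem cr_trans {v w z : ℝ × ℝ} (hv : Low v) (hw : Low w) (hz : Low z) (h1 : 0 ≤ cr v w)
    (h2 : 0 ≤ cr w z) : 0 ≤ cr v z := by
  have hv2 : v.2 ≤ 0 := by rcases hv with h | h <;> linarith [h]
  have hz2 : z.2 ≤ 0 := by rcases hz with h | h <;> linarith [h]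
  rcases hw with hw | ⟨hw2, hw1⟩
  · have key : w.2 * cr v z = z.2 * cr v w + v.2 * cr w z := by unfold cr; ring
    have h3 : w.2 * cr v z ≤ 0 := by
      rw [key]
      nlinarith [mul_nonneg (neg_nonneg.2 hz2) h1, mul_nonneg (neg_nonneg.2 hv2) h2]
    by_contra hcon
    push Not at hcon
    nlinarith [mul_pos_of_neg_of_neg hw hcon]
  · have h3 : v.2 = 0 := by
      unfold cr at h1
      rw [hw2] at h1
      rcases lt_or_eq_of_le hv2 with h | h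
      · nlinarith [mul_pos_of_neg_of_neg h hw1]
      · exact h
    have h4 : v.1 < 0 := by
      rcases hv with h | h
      · linarith
      · exact h.2
    unfold cr
    rw [h3]
    nlinarith [mul_nonneg_of_nonpos_of_nonpos h4.le hz2]

theorem hull_fin (S : Finset (ℝ × ℝ)) (hS : ∃ p ∈ S, ∃ q ∈ S, p ≠ q) :
    ∃ p ∈ S, ∃ q ∈ S, ∃ r ∈ S, q ≠ p ∧ r ≠ p ∧ (∀ d ∈ S, d.2 ≤ p.2) ∧
      (∀ d ∈ S, 0 ≤ cr (q - p) (d - p)) ∧ (∀ d ∈ S, cr (r - p) (d - p) ≤ 0) := by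
  classical
  obtain ⟨p₀, hp₀, q₀, hq₀, hpq₀⟩ := hS
  obtain ⟨p, hp, hmax⟩ := Finset.exists_max_image S (fun z => toLex (z.2, z.1)) ⟨p₀, hp₀⟩
  have hlow : ∀ d ∈ S, d ≠ p → Low (d - p) := by
    intro d hd hdp
    have h1 := hmax d hd
    rw [Prod.Lex.toLex_le_toLex] at h1
    simp only at h1
    rcases h1 with h1 | ⟨h1, h2⟩
    · left
      simp only [Prod.snd_sub]
      linarith
    · right
      simp only [Prod.snd_sub, Prod.fst_sub]
      refine ⟨by linarith, ?_⟩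
      rcases lt_or_eq_of_le h2 with h3 | h3
      · linarith
      · exact absurd (Prod.ext h3 h1) hdp
  have hle : ∀ d ∈ S, d.2 ≤ p.2 := by
    intro d hd
    by_cases hdp : d = p
    · rw [hdp]
    · rcases hlow d hd hdp with h | h
      · simp only [Prod.snd_sub] at h
        linarith
      · simp only [Prod.snd_sub] at h
        linarith [h.1]
  have hne : (S.erase p).Nonempty := by
    by_cases h : p₀ = p
    · exact ⟨q₀, Finset.mem_erase.2 ⟨fun h' => hpq₀ (h.trans h'.symm), hq₀⟩⟩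
    · exact ⟨p₀, Finset.mem_erase.2 ⟨h, hp₀⟩⟩
  have hanti : ∀ v w : ℝ × ℝ, cr v w = -cr w v := fun v w => by unfold cr; ring
  obtain ⟨q, hq, hqmin⟩ := exists_least (S.erase p) hne (fun x y => 0 ≤ cr (x - p) (y - p))
    (by
      intro x _ y _
      rcases le_total 0 (cr (x - p) (y - p)) with h | h
      · exact Or.inl h
      · right
        rw [hanti]
        linarith)
    (by
      intro x hx y hy z hz h1 h2
      rw [Finset.mem_erase] at hx hy hz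
      exact cr_trans (hlow x hx.2 hx.1) (hlow y hy.2 hy.1) (hlow z hz.2 hz.1) h1 h2)
  obtain ⟨r, hr, hrmin⟩ := exists_least (S.erase p) hne (fun x y => 0 ≤ cr (y - p) (x - p))
    (by
      intro x _ y _
      rcases le_total 0 (cr (x - p) (y - p)) with h | h
      · exact Or.inr h
      · left
        rw [hanti]
        linarith)
    (by
      intro x hx y hy z hz h1 h2
      rw [Finset.mem_erase] at hx hy hz
      exact cr_trans (hlow z hz.2 hz.1) (hlow y hy.2 hy.1) (hlow x hx.2 hx.1) h2 h1)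
  rw [Finset.mem_erase] at hq hr
  refine ⟨p, hp, q, hq.2, r, hr.2, hq.1, hr.1, hle, ?_, ?_⟩
  · intro d hd
    by_cases hdp : d = p
    · rw [hdp, sub_self]
      simp [cr]
    · exact hqmin d (Finset.mem_erase.2 ⟨hdp, hd⟩)
  · intro d hd
    by_cases hdp : d = p
    · rw [hdp, sub_self]
      simp [cr]
    · have h := hrmin d (Finset.mem_erase.2 ⟨hdp, hd⟩)
      rw [hanti] at h
      linarith

theorem II_hull (S : Set (ℝ* × ℝ*)) (hS : S ∈ II) (hne : ∃ p ∈ S, ∃ q ∈ S, p ≠ q) :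
    ∃ p ∈ S, ∃ q ∈ S, ∃ r ∈ S, q ≠ p ∧ r ≠ p ∧ (∀ d ∈ S, d.2 ≤ p.2) ∧
      (∀ d ∈ S, 0 ≤ cr (q - p) (d - p)) ∧ (∀ d ∈ S, cr (r - p) (d - p) ≤ 0) := by
  obtain ⟨A, rfl⟩ := hS
  obtain ⟨p₀, hp₀, q₀, hq₀, hpq₀⟩ := hne
  obtain ⟨p₀, rfl⟩ := exists_pt p₀
  obtain ⟨q₀, rfl⟩ := exists_pt q₀
  have h1 : ∀ᶠ n in (UH : Filter ℕ), ∃ z : (ℝ × ℝ) × (ℝ × ℝ) × (ℝ × ℝ), z.1 ∈ A n ∧
      z.2.1 ∈ A n ∧ z.2.2 ∈ A n ∧ z.2.1 ≠ z.1 ∧ z.2.2 ≠ z.1 ∧ (∀ d ∈ A n, d.2 ≤ z.1.2) ∧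
      (∀ d ∈ A n, 0 ≤ cr (z.2.1 - z.1) (d - z.1)) ∧
      (∀ d ∈ A n, cr (z.2.2 - z.1) (d - z.1) ≤ 0) := by
    filter_upwards [mem_ist.1 hp₀, mem_ist.1 hq₀, pt_ne.1 hpq₀] with n h1 h2 h3
    obtain ⟨p, hp, q, hq, r, hr, h⟩ := hull_fin (A n) ⟨_, h1, _, h2, h3⟩
    exact ⟨(p, q, r), hp, hq, hr, h⟩
  obtain ⟨f, hf⟩ := exists_seq' h1
  refine ⟨pt (fun n => (f n).1), mem_ist.2 (hf.mono fun n hn => hn.1),
    pt (fun n => (f n).2.1), mem_ist.2 (hf.mono fun n hn => hn.2.1),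
    pt (fun n => (f n).2.2), mem_ist.2 (hf.mono fun n hn => hn.2.2.1),
    pt_ne.2 (hf.mono fun n hn => hn.2.2.2.1), pt_ne.2 (hf.mono fun n hn => hn.2.2.2.2.1), ?_, ?_,
    ?_⟩
  · rintro d ⟨g, hg, rfl⟩
    show ofSeq _ ≤ ofSeq _
    rw [ofSeq_le]
    filter_upwards [hf, hg] with n h1 h2 using h1.2.2.2.2.2.1 _ h2
  · rintro d ⟨g, hg, rfl⟩
    rw [pt_sub, pt_sub, cr_pt, ← ofSeq_zero, ofSeq_le]
    filter_upwards [hf, hg] with n h1 h2 using h1.2.2.2.2.2.2.1 _ h2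
  · rintro d ⟨g, hg, rfl⟩
    rw [pt_sub, pt_sub, cr_pt, ← ofSeq_zero, ofSeq_le]
    filter_upwards [hf, hg] with n h1 h2 using h1.2.2.2.2.2.2.2 _ h2

theorem nrm_pos_of_ne {p q : ℝ × ℝ} (h : p ≠ q) : 0 < nrm (p - q) := by
  unfold nrm
  rw [lt_max_iff, abs_pos, abs_pos]
  by_contra hcon
  push Not at hcon
  apply h
  apply Prod.ext
  · have := hcon.1
    simp only [Prod.fst_sub] at this
    linarith
  · have := hcon.2
    simp only [Prod.snd_sub] at this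
    linarith

theorem sep_fin (S : Finset (ℝ × ℝ)) :
    ∃ ρ : ℝ, 0 < ρ ∧ ∀ p ∈ S, ∀ q ∈ S, p ≠ q → ρ ≤ nrm (p - q) := by
  classical
  by_cases h : S.offDiag.Nonempty
  · obtain ⟨z, hz, hmin⟩ := Finset.exists_min_image S.offDiag (fun z => nrm (z.1 - z.2)) h
    rw [Finset.mem_offDiag] at hz
    refine ⟨nrm (z.1 - z.2), nrm_pos_of_ne hz.2.2, ?_⟩
    intro p hp q hq hpq
    exact hmin (p, q) (Finset.mem_offDiag.2 ⟨hp, hq, hpq⟩)
  · refine ⟨1, one_pos, ?_⟩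
    intro p hp q hq hpq
    exact absurd ⟨(p, q), Finset.mem_offDiag.2 ⟨hp, hq, hpq⟩⟩ h

theorem II_sep (S : Set (ℝ* × ℝ*)) (hS : S ∈ II) :
    ∃ ρ : ℝ*, 0 < ρ ∧ ∀ p ∈ S, ∀ q ∈ S, p ≠ q → ρ ≤ nrm (p - q) := by
  obtain ⟨A, rfl⟩ := hS
  choose ρ hρ hsep using fun n => sep_fin (A n)
  refine ⟨ofSeq ρ, ?_, ?_⟩
  · rw [← ofSeq_zero, ofSeq_lt]
    exact Filter.Eventually.of_forall hρ
  · rintro p ⟨f, hf, rfl⟩ q ⟨g, hg, rfl⟩ hpq
    rw [pt_sub, nrm_pt, ofSeq_le]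
    filter_upwards [hf, hg, pt_ne.1 hpq] with n h1 h2 h3 using hsep n _ h1 _ h2 h3

end Pool.Agent.Lib.MP_8bcb9d_co.H
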