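import Mathlib
import Pool.Agent.Lib.MP_8bcb9d_co.H.H1

/-!
# Countable saturation
-/

set_option autoImplicit false

namespace Pool.Agent.Lib.MP_8bcb9d_co.H

open Filter Hyperreal Pool.Agent.Lib.MP_8bcb9d_co.W

theorem II_sat (D : ℕ → Set (ℝ* × ℝ*)) (hD : ∀ n, D n ∈ II) (hne : ∀ n, (D n).Nonempty)
    (hsub : ∀ n, D (n + 1) ⊆ D n) : ∃ p, ∀ n, p ∈ D n := by
  classical
  choose S hS using hD
  have hmono : ∀ m n, m ≤ n → D n ⊆ D m := by
    intro m n h
    induction h with
    | refl => exact subset_rfl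
    | step _ ih => exact (hsub _).trans ih
  -- the good indices
  have hgood : ∀ n, ∀ᶠ k in (UH : Filter ℕ), n ≤ k ∧ (S n k).Nonempty ∧
      ∀ m ≤ n, S n k ⊆ S m k := by
    intro n
    have h1 : ∀ᶠ k in (UH : Filter ℕ), n ≤ k :=
      (eventually_ge_atTop n).filter_mono Nat.hyperfilter_le_atTop
    have h2 : ∀ᶠ k in (UH : Filter ℕ), (S n k).Nonempty := by
      have := hne n
      rw [hS n] at this
      exact ist_nonempty.1 this
    have h3 : ∀ᶠ k in (UH : Filter ℕ), ∀ m ∈ Finset.range (n + 1), S n k ⊆ S m k := by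
      rw [Filter.eventually_all_finset]
      intro m hm
      rw [Finset.mem_range] at hm
      apply ist_subset.1
      rw [← hS n, ← hS m]
      exact hmono m n (by omega)
    filter_upwards [h1, h2, h3] with k a b c
    exact ⟨a, b, fun m hm => c m (Finset.mem_range.2 (by omega))⟩
  -- the largest good index below `k`
  let P : ℕ → ℕ → Prop := fun k n => n ≤ k ∧ (S n k).Nonempty ∧ ∀ m ≤ n, S n k ⊆ S m k
  have hch : ∀ k, ∃ x : ℝ × ℝ, ∀ n, P k n → x ∈ S n k := by
    intro k
    by_cases h : ∃ n, P k n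
    · let N := Nat.findGreatest (P k) k
      obtain ⟨n₀, hn₀⟩ := h
      have hN : P k N := Nat.findGreatest_spec (P := P k) hn₀.1 hn₀
      obtain ⟨x, hx⟩ := hN.2.1
      refine ⟨x, fun n hn => ?_⟩
      exact hN.2.2 n (Nat.le_findGreatest hn.1 hn) hx
    · push Not at h
      exact ⟨0, fun n hn => absurd hn (h n)⟩
  choose f hf using hch
  refine ⟨pt f, fun n => ?_⟩
  rw [hS n, mem_ist]
  filter_upwards [hgood n] with k hk using hf k n hk

end Pool.Agent.Lib.MP_8bcb9d_co.H
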