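import Mathlib
import Pool.Agent.Lib.MP_8bcb9d_co.H.H1

/-!
# Cardinalities of internal sets, transfer of general position and of degrees
-/

set_option autoImplicit false

namespace Pool.Agent.Lib.MP_8bcb9d_co.H

open Filter Hyperreal Pool.Agent.Lib.MP_8bcb9d_co.W

theorem encard_of_card {S : ℕ → Finset (ℝ × ℝ)} {m : ℕ}
    (h : ∀ᶠ n in (UH : Filter ℕ), m ≤ (S n).card) : (m : ℕ∞) ≤ (ist S).encard := by
  classical
  have h1 : ∀ᶠ n in (UH : Filter ℕ), ∃ g : Fin m → ℝ × ℝ, Function.Injective g ∧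
      ∀ i, g i ∈ S n := by
    filter_upwards [h] with n hn
    obtain ⟨T, hT, hTc⟩ := Finset.exists_subset_card_eq hn
    let e := T.equivFin.trans (finCongr hTc)
    refine ⟨fun i => (e.symm i : ℝ × ℝ), ?_, fun i => hT (e.symm i).2⟩
    intro i j hij
    exact e.symm.injective (Subtype.ext hij)
  obtain ⟨g, hg⟩ := exists_seq' h1
  have hinj : Function.Injective (fun i : Fin m => pt (fun n => g n i)) := by
    intro i j hij
    have h2 := pt_eq.1 hij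
    obtain ⟨n, hn1, hn2⟩ := (h2.and hg).exists
    exact hn2.1 hn1
  have hsub : Set.range (fun i : Fin m => pt (fun n => g n i)) ⊆ ist S := by
    rintro p ⟨i, rfl⟩
    exact mem_ist.2 (hg.mono fun n hn => hn.2 i)
  calc (m : ℕ∞) = (Set.range (fun i : Fin m => pt (fun n => g n i))).encard := by
        rw [← Set.image_univ, hinj.encard_image]
        simp
    _ ≤ (ist S).encard := Set.encard_le_encard hsub

theorem encard_of_card_le {S : ℕ → Finset (ℝ × ℝ)} {m : ℕ}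
    (h : ∀ᶠ n in (UH : Filter ℕ), (S n).card ≤ m) : (ist S).encard ≤ m := by
  classical
  have h1 : ∀ᶠ n in (UH : Filter ℕ), ∃ g : Fin m → ℝ × ℝ, ∀ x ∈ S n, ∃ i, g i = x := by
    filter_upwards [h] with n hn
    refine ⟨fun i => if h : (i : ℕ) < (S n).card then
      ((S n).equivFin.symm ⟨i, h⟩ : ℝ × ℝ) else 0, ?_⟩
    intro x hx
    have hlt : ((S n).equivFin ⟨x, hx⟩ : ℕ) < m := lt_of_lt_of_le ((S n).equivFin ⟨x, hx⟩).2 hn
    refine ⟨⟨((S n).equivFin ⟨x, hx⟩ : ℕ), hlt⟩, ?_⟩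
    simp
  obtain ⟨g, hg⟩ := exists_seq' h1
  have hsub : ist S ⊆ Set.range (fun i : Fin m => pt (fun n => g n i)) := by
    rintro p ⟨f, hf, rfl⟩
    have h2 : ∀ᶠ n in (UH : Filter ℕ), ∃ i ∈ (Finset.univ : Finset (Fin m)), g n i = f n := by
      filter_upwards [hf, hg] with n a b
      obtain ⟨i, hi⟩ := b _ a
      exact ⟨i, Finset.mem_univ i, hi⟩
    have h3 : ∃ i ∈ (Finset.univ : Finset (Fin m)), ∀ᶠ n in (UH : Filter ℕ), g n i = f n := by
      by_contra hcon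
      push Not at hcon
      have h4 : ∀ᶠ n in (UH : Filter ℕ), ∀ i ∈ (Finset.univ : Finset (Fin m)), g n i ≠ f n := by
        rw [Filter.eventually_all_finset]
        intro i hi
        exact hcon i hi
      obtain ⟨n, ⟨i, hi, hi'⟩, hn2⟩ := (h2.and h4).exists
      exact hn2 i hi hi'
    obtain ⟨i, -, hi⟩ := h3
    exact ⟨i, pt_eq.2 hi⟩
  calc (ist S).encard ≤ (Set.range (fun i : Fin m => pt (fun n => g n i))).encard :=
        Set.encard_le_encard hsub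
    _ ≤ (Set.univ : Set (Fin m)).encard := by
        rw [← Set.image_univ]
        exact Set.encard_image_le _ _
    _ = m := by simp

theorem card_of_encard {S : ℕ → Finset (ℝ × ℝ)} {m : ℕ} (h : (m : ℕ∞) ≤ (ist S).encard) :
    ∀ᶠ n in (UH : Filter ℕ), m ≤ (S n).card := by
  by_contra hcon
  rw [← Ultrafilter.eventually_not] at hcon
  rcases Nat.eq_zero_or_pos m with rfl | hm
  · obtain ⟨n, hn⟩ := hcon.exists
    exact hn (Nat.zero_le _)
  · have h1 : ∀ᶠ n in (UH : Filter ℕ), (S n).card ≤ m - 1 := by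
      filter_upwards [hcon] with n hn
      omega
    have h2 := encard_of_card_le h1
    have h3 : (m : ℕ∞) ≤ ((m - 1 : ℕ) : ℕ∞) := h.trans h2
    have h4 : m ≤ m - 1 := by exact_mod_cast h3
    omega

theorem card_of_infinite {S : ℕ → Finset (ℝ × ℝ)} (h : (ist S).Infinite) (m : ℕ) :
    ∀ᶠ n in (UH : Filter ℕ), m ≤ (S n).card := by
  apply card_of_encard
  rw [h.encard_eq]
  exact le_top

theorem infinite_of_card {S : ℕ → Finset (ℝ × ℝ)}
    (h : ∀ m : ℕ, ∀ᶠ n in (UH : Filter ℕ), m ≤ (S n).card) : (ist S).Infinite := by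
  rw [← Set.encard_eq_top_iff, ENat.eq_top_iff_forall_ge]
  intro m
  exact encard_of_card (h m)

theorem gp_transfer {S : ℕ → Finset (ℝ × ℝ)} (h : GP (ist S)) :
    ∀ᶠ n in (UH : Filter ℕ), GP ((S n : Finset (ℝ × ℝ)) : Set (ℝ × ℝ)) := by
  by_contra hcon
  rw [← Ultrafilter.eventually_not] at hcon
  have h1 : ∀ᶠ n in (UH : Filter ℕ), ∃ z : (ℝ × ℝ) × (ℝ × ℝ) × (ℝ × ℝ), z.1 ∈ S n ∧
      z.2.1 ∈ S n ∧ z.2.2 ∈ S n ∧ z.1 ≠ z.2.1 ∧ z.1 ≠ z.2.2 ∧ z.2.1 ≠ z.2.2 ∧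
      cr (z.2.1 - z.1) (z.2.2 - z.1) = 0 := by
    filter_upwards [hcon] with n hn
    unfold GP at hn
    push Not at hn
    obtain ⟨a, ha, b, hb, c, hc, h1, h2, h3, h4⟩ := hn
    exact ⟨(a, b, c), ha, hb, hc, h1, h2, h3, h4⟩
  obtain ⟨f, hf⟩ := exists_seq' h1
  refine h (pt fun n => (f n).1) (mem_ist.2 (hf.mono fun n hn => hn.1)) (pt fun n => (f n).2.1)
    (mem_ist.2 (hf.mono fun n hn => hn.2.1)) (pt fun n => (f n).2.2)
    (mem_ist.2 (hf.mono fun n hn => hn.2.2.1)) (pt_ne.2 (hf.mono fun n hn => hn.2.2.2.1))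
    (pt_ne.2 (hf.mono fun n hn => hn.2.2.2.2.1)) (pt_ne.2 (hf.mono fun n hn => hn.2.2.2.2.2.1)) ?_
  rw [pt_sub, pt_sub, cr_pt, ← ofSeq_zero, ofSeq_eq]
  exact hf.mono fun n hn => hn.2.2.2.2.2.2

theorem tri_transfer {a b z w : ℕ → ℝ × ℝ} (h : pt w ∈ Tri (pt a) (pt b) (pt z)) :
    ∀ᶠ n in (UH : Filter ℕ), w n ∈ Tri (a n) (b n) (z n) := by
  obtain ⟨x, y, t, hx, hy, ht, hsum, hw⟩ := h
  obtain ⟨x, rfl⟩ := exists_ofSeq x
  obtain ⟨y, rfl⟩ := exists_ofSeq y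
  obtain ⟨t, rfl⟩ := exists_ofSeq t
  have h1 : ofSeq x + ofSeq y + ofSeq t = ofSeq (fun n => x n + y n + t n) := rfl
  have h2 : ofSeq x • pt a + ofSeq y • pt b + ofSeq t • pt z =
      pt (fun n => x n • a n + y n • b n + t n • z n) := rfl
  rw [h1, ← ofSeq_one, ofSeq_eq] at hsum
  rw [h2, pt_eq] at hw
  rw [← ofSeq_zero, ofSeq_le] at hx hy ht
  filter_upwards [hx, hy, ht, hsum, hw] with n h1 h2 h3 h4 h5
  exact ⟨x n, y n, t n, h1, h2, h3, h4, h5⟩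

open Classical in
theorem kb_transfer {K : ℕ} {S : ℕ → Finset (ℝ × ℝ)} (h : KB K (ist S)) :
    ∀ᶠ n in (UH : Filter ℕ), KB K ((S n : Finset (ℝ × ℝ)) : Set (ℝ × ℝ)) := by
  by_contra hcon
  rw [← Ultrafilter.eventually_not] at hcon
  have h1 : ∀ᶠ n in (UH : Filter ℕ), ∃ z : (ℝ × ℝ) × (ℝ × ℝ), z.1 ∈ S n ∧ z.2 ∈ S n ∧
      z.1 ≠ z.2 ∧ (K : ℕ∞) < (Lnk ((S n : Finset (ℝ × ℝ)) : Set (ℝ × ℝ)) z.1 z.2).encard := by
    filter_upwards [hcon, gp_transfer h.gp] with n h1 h2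
    by_contra h3
    push Not at h3
    exact h1 ⟨h2, fun a ha b hb hab => h3 (a, b) ha hb hab⟩
  obtain ⟨f, hf⟩ := exists_seq' h1
  let L : ℕ → Finset (ℝ × ℝ) := fun n =>
    (S n).filter fun z => z ∈ Lnk ((S n : Finset (ℝ × ℝ)) : Set (ℝ × ℝ)) (f n).1 (f n).2
  have hL : ∀ᶠ n in (UH : Filter ℕ), K + 1 ≤ (L n).card := by
    filter_upwards [hf] with n hn
    have h2 : Lnk ((S n : Finset (ℝ × ℝ)) : Set (ℝ × ℝ)) (f n).1 (f n).2 = (L n : Set (ℝ × ℝ)) := by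
      ext z
      simp only [L, Finset.coe_filter]
      constructor
      · intro hz
        exact ⟨hz.1, hz⟩
      · intro hz
        exact hz.2
    have h3 := hn.2.2.2
    rw [h2, Set.encard_coe_eq_coe_finsetCard] at h3
    have h4 : K < (L n).card := by exact_mod_cast h3
    omega
  have h2 := encard_of_card hL
  have hsub : ist L ⊆ Lnk (ist S) (pt fun n => (f n).1) (pt fun n => (f n).2) := by
    rintro z ⟨g, hg, rfl⟩
    have hg' : ∀ᶠ n in (UH : Filter ℕ), g n ∈ Lnk ((S n : Finset (ℝ × ℝ)) : Set (ℝ × ℝ))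
        (f n).1 (f n).2 := hg.mono fun n hn => (Finset.mem_filter.1 hn).2
    refine ⟨mem_ist.2 (hg'.mono fun n hn => hn.1), pt_ne.2 (hg'.mono fun n hn => hn.2.1),
      pt_ne.2 (hg'.mono fun n hn => hn.2.2.1), ?_⟩
    rintro w ⟨k, hk, rfl⟩ hw
    have h3 : ∀ᶠ n in (UH : Filter ℕ), k n = (f n).1 ∨ k n = (f n).2 ∨ k n = g n := by
      filter_upwards [hk, hg', tri_transfer hw] with n a b c using b.2.2.2 _ a c
    rw [Ultrafilter.eventually_or, Ultrafilter.eventually_or] at h3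
    rw [pt_eq, pt_eq, pt_eq]
    exact h3
  have h3 := h.deg (pt fun n => (f n).1) (mem_ist.2 (hf.mono fun n hn => hn.1))
    (pt fun n => (f n).2) (mem_ist.2 (hf.mono fun n hn => hn.2.1))
    (pt_ne.2 (hf.mono fun n hn => hn.2.2.1))
  have h4 : ((K + 1 : ℕ) : ℕ∞) ≤ (K : ℕ∞) := h2.trans ((Set.encard_le_encard hsub).trans h3)
  have h5 : K + 1 ≤ K := by exact_mod_cast h4
  omega

end Pool.Agent.Lib.MP_8bcb9d_co.H
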