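import Mathlib
import Pool.Agent.Lib.MP_8bcb9d_co.H.H5
import Pool.Agent.Lib.MP_8bcb9d_co.PI.Def

/-!
# The statement WF over the hyperreals
-/

set_option autoImplicit false

namespace Pool.Agent.Lib.MP_8bcb9d_co.H

open Filter Hyperreal Topology

/-- from `ℝ × ℝ` to the Euclidean plane -/
noncomputable def ee (p : ℝ × ℝ) : E := mk p.1 p.2

theorem ee_inj : Function.Injective ee := by
  intro p q h
  apply Prod.ext
  · have := congrArg (fun v : E => v 0) h
    simpa [ee] using this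
  · have := congrArg (fun v : E => v 1) h
    simpa [ee] using this

theorem ee_surj (v : E) : ee (v 0, v 1) = v := by
  apply ext2 <;> simp [ee]

theorem ee_tri {a b z w : ℝ × ℝ} (h : w ∈ W.Tri a b z) :
    ee w ∈ convexHull ℝ ({ee a, ee b, ee z} : Set E) := by
  obtain ⟨x, y, t, hx, hy, ht, hsum, hw⟩ := h
  have h1 : ee w = x • ee a + y • ee b + t • ee z := by
    apply ext2
    · rw [hw]
      simp [ee]
    · rw [hw]
      simp [ee]
  rw [h1]
  have hs : ({ee a, ee b, ee z} : Set E) ⊆ convexHull ℝ ({ee a, ee b, ee z} : Set E) :=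
    subset_convexHull ℝ _
  have ha : ee a ∈ convexHull ℝ ({ee a, ee b, ee z} : Set E) := hs (by simp)
  have hb : ee b ∈ convexHull ℝ ({ee a, ee b, ee z} : Set E) := hs (by simp)
  have hz : ee z ∈ convexHull ℝ ({ee a, ee b, ee z} : Set E) := hs (by simp)
  have hc : Convex ℝ (convexHull ℝ ({ee a, ee b, ee z} : Set E)) := convex_convexHull ℝ _
  rcases eq_or_lt_of_le (add_nonneg hx hy) with h0 | h0
  · have hx0 : x = 0 := by linarith
    have hy0 : y = 0 := by linarith
    have ht1 : t = 1 := by linarith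
    rw [hx0, hy0, ht1, zero_smul, zero_smul, one_smul, zero_add, zero_add]
    exact hz
  · have h2 : (x / (x + y)) • ee a + (y / (x + y)) • ee b ∈
        convexHull ℝ ({ee a, ee b, ee z} : Set E) :=
      hc ha hb (by positivity) (by positivity) (by field_simp)
    have h3 := hc h2 hz h0.le ht hsum
    convert h3 using 1
    rw [smul_add, smul_smul, smul_smul, mul_div_cancel₀ _ h0.ne', mul_div_cancel₀ _ h0.ne']

theorem collinear_cr {a b c : ℝ × ℝ} (h : Collinear ℝ ({ee a, ee b, ee c} : Set E)) :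
    W.cr (b - a) (c - a) = 0 := by
  rw [collinear_iff_of_mem (p₀ := ee a) (by simp)] at h
  obtain ⟨v, hv⟩ := h
  obtain ⟨r, hr⟩ := hv (ee b) (by simp)
  obtain ⟨s, hs⟩ := hv (ee c) (by simp)
  have hr0 := congrArg (fun v : E => v 0) hr
  have hr1 := congrArg (fun v : E => v 1) hr
  have hs0 := congrArg (fun v : E => v 0) hs
  have hs1 := congrArg (fun v : E => v 1) hs
  simp [ee] at hr0 hr1 hs0 hs1
  simp only [W.cr, Prod.fst_sub, Prod.snd_sub]
  rw [hr0, hr1, hs0, hs1]
  ring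

open Classical in
theorem kset_of_kb {K : ℕ} {S : Finset (ℝ × ℝ)} (h : W.KB K (S : Set (ℝ × ℝ))) :
    KSet K (S.image ee) := by
  constructor
  · intro a' ha' b' hb' c' hc' hab hac hbc hcol
    obtain ⟨a, ha, rfl⟩ := Finset.mem_image.1 ha'
    obtain ⟨b, hb, rfl⟩ := Finset.mem_image.1 hb'
    obtain ⟨c, hc, rfl⟩ := Finset.mem_image.1 hc'
    exact h.gp a ha b hb c hc (fun h => hab (by rw [h])) (fun h => hac (by rw [h]))
      (fun h => hbc (by rw [h])) (collinear_cr hcol)
  · intro a' ha' b' hb' hab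
    obtain ⟨a, ha, rfl⟩ := Finset.mem_image.1 ha'
    obtain ⟨b, hb, rfl⟩ := Finset.mem_image.1 hb'
    have hab' : a ≠ b := fun h => hab (by rw [h])
    have hsub : Deg (S.image ee) (ee a) (ee b) ⊆ ee '' (W.Lnk (S : Set (ℝ × ℝ)) a b) := by
      rintro z' ⟨hz', hza, hzb, hz⟩
      obtain ⟨z, hzS, rfl⟩ := Finset.mem_image.1 hz'
      refine ⟨z, ⟨hzS, fun h => hza (by rw [h]), fun h => hzb (by rw [h]), ?_⟩, rfl⟩
      intro w hw hwt
      rcases hz (ee w) (Finset.mem_image_of_mem ee hw) (ee_tri hwt) with h | h | h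
      · exact Or.inl (ee_inj h)
      · exact Or.inr (Or.inl (ee_inj h))
      · exact Or.inr (Or.inr (ee_inj h))
    have h1 := h.deg a ha b hb hab'
    have h2 : (Deg (S.image ee) (ee a) (ee b)).encard ≤ K :=
      (Set.encard_le_encard hsub).trans ((Set.encard_image_le _ _).trans h1)
    have h3 := (Deg.finite (S.image ee) (ee a) (ee b)).cast_ncard_eq
    rw [← h3] at h2
    exact_mod_cast h2

theorem kset_empty (K : ℕ) : KSet K ∅ := by
  constructor
  · intro a ha
    exact absurd ha (Finset.notMem_empty a)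
  · intro a ha
    exact absurd ha (Finset.notMem_empty a)

theorem norm_ee_le (p : ℝ × ℝ) : ‖ee p‖ ≤ 2 * W.nrm p := by
  have h := dist_le_abs (ee p) 0
  rw [dist_zero_right] at h
  have h0 : |(ee p) 0 - (0 : E) 0| = |p.1| := by simp [ee]
  have h1 : |(ee p) 1 - (0 : E) 1| = |p.2| := by simp [ee]
  rw [h0, h1] at h
  have h2 : |p.1| ≤ W.nrm p := le_max_left _ _
  have h3 : |p.2| ≤ W.nrm p := le_max_right _ _
  linarith

theorem nrm_sub_le (p q : ℝ × ℝ) : W.nrm (p - q) ≤ dist (ee p) (ee q) := by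
  have h0 := abs_sub_zero_le (ee p) (ee q)
  have h1 := abs_sub_one_le (ee p) (ee q)
  simp only [ee, mk_zero, mk_one] at h0 h1
  exact max_le h0 h1

open Classical in
theorem II_WF {K : ℕ} (pf : ∀ X : ℕ → Finset E, (∀ n, KSet K (X n)) → (pos X).Finite)
    (X : Set (ℝ* × ℝ*)) (hX : X ∈ II) (hK : W.KB K X) :
    ∃ Z : Set (ℝ* × ℝ*), Z.Finite ∧ Z ⊆ X ∧
      ∀ p ∈ X, W.Bd (W.nrm p) 1 → ∃ z ∈ Z, W.Sm (W.nrm (p - z)) 1 := by
  obtain ⟨S, rfl⟩ := hX
  let Y : ℕ → Finset E := fun n => if KSet K ((S n).image ee) then (S n).image ee else ∅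
  have hY : ∀ n, KSet K (Y n) := by
    intro n
    by_cases h : KSet K ((S n).image ee)
    · simp only [Y, if_pos h]
      exact h
    · simp only [Y, if_neg h]
      exact kset_empty K
  have hYS : ∀ᶠ n in (UH : Filter ℕ), Y n = (S n).image ee := by
    filter_upwards [kb_transfer hK] with n hn
    simp only [Y, if_pos (kset_of_kb hn)]
  have hfin := pf Y hY
  have hch : ∀ v : E, ∃ f : ℕ → ℝ × ℝ, v ∈ pos Y →
      (∀ᶠ n in (UH : Filter ℕ), f n ∈ S n) ∧ Tendsto (fun n => ee (f n)) UH (𝓝 v) := by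
    intro v
    by_cases hv : v ∈ pos Y
    · obtain ⟨x, hx, hxv⟩ := exists_seq_of_mem (fun n => (Y n).finite_toSet.isClosed) hv
      refine ⟨fun n => (x n 0, x n 1), fun _ => ⟨?_, ?_⟩⟩
      · filter_upwards [hx, hYS] with n h1 h2
        rw [h2] at h1
        obtain ⟨p, hp, hpx⟩ := Finset.mem_image.1 h1
        have h3 : p = (x n 0, x n 1) := ee_inj (by rw [hpx, ee_surj])
        rw [← h3]
        exact hp
      · have h4 : (fun n => ee (x n 0, x n 1)) = x := funext fun n => ee_surj (x n)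
        rw [h4]
        exact hxv
    · exact ⟨fun _ => 0, fun h => absurd h hv⟩
  choose g hg using hch
  refine ⟨(fun v => pt (g v)) '' pos Y, hfin.image _, ?_, ?_⟩
  · rintro z ⟨v, hv, rfl⟩
    exact mem_ist.2 (hg v hv).1
  · rintro p ⟨f, hf, rfl⟩ ⟨m, hm⟩
    rw [nrm_pt, abs_one, mul_one, ← ofSeq_abs, natCast_ofSeq, ofSeq_le] at hm
    have h1 : ∀ᶠ n in (UH : Filter ℕ), ‖ee (f n)‖ ≤ 2 * m := by
      filter_upwards [hm] with n hn
      have h2 := norm_ee_le (f n)
      have h3 := le_abs_self (W.nrm (f n))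
      linarith
    obtain ⟨v, hv⟩ := exists_tendsto (U := UH) h1
    have hvp : v ∈ pos Y := by
      refine mem_ulim_of_tendsto (x := fun n => ee (f n)) ?_ hv
      filter_upwards [hf, hYS] with n h2 h3
      rw [h3]
      exact_mod_cast Finset.mem_image_of_mem ee h2
    refine ⟨pt (g v), ⟨v, hvp, rfl⟩, ?_⟩
    intro k
    rw [pt_sub, nrm_pt, ← ofSeq_abs, natCast_ofSeq, abs_one, ← ofSeq_mul, ← ofSeq_one, ofSeq_lt]
    have h2 := hv.dist (hg v hvp).2
    rw [dist_self] at h2
    have h3 : ∀ᶠ n in (UH : Filter ℕ), dist (ee (f n)) (ee (g v n)) < 1 / ((k : ℝ) + 1) :=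
      h2.eventually (gt_mem_nhds (by positivity))
    filter_upwards [h3] with n hn
    have h4 := nrm_sub_le (f n) (g v n)
    have h5 : 0 ≤ W.nrm (f n - g v n) := le_trans (abs_nonneg _) (le_max_left _ _)
    rw [abs_of_nonneg h5]
    have h6 : W.nrm (f n - g v n) < 1 / ((k : ℝ) + 1) := lt_of_le_of_lt h4 hn
    rw [lt_div_iff₀ (by positivity)] at h6
    nlinarith

end Pool.Agent.Lib.MP_8bcb9d_co.H
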