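import Mathlib
import Pool.Agent.Lib.MP_8bcb9d_co.W.Def

/-!
# Radial isotropy, weak finite form
-/

set_option autoImplicit false

namespace Pool.Agent.Lib.MP_8bcb9d_co

namespace Iso

open W

/-- the vectors -/
abbrev V3 : Type := ℝ × ℝ × ℝ

/-- squared Euclidean norm -/
noncomputable def n2 (u : V3) : ℝ := dot3 u u

theorem n2_eq (u : V3) : n2 u = u.1 ^ 2 + u.2.1 ^ 2 + u.2.2 ^ 2 := by
  simp only [n2, dot3]; ring

theorem n2_nonneg (u : V3) : 0 ≤ n2 u := by rw [n2_eq]; positivity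

theorem n2_pos {u : V3} (hu : u ≠ 0) : 0 < n2 u := by
  rw [n2_eq]
  by_contra h
  apply hu
  push Not at h
  have h1 : u.1 = 0 := by nlinarith [sq_nonneg u.1, sq_nonneg u.2.1, sq_nonneg u.2.2]
  have h2 : u.2.1 = 0 := by nlinarith [sq_nonneg u.1, sq_nonneg u.2.1, sq_nonneg u.2.2]
  have h3 : u.2.2 = 0 := by nlinarith [sq_nonneg u.1, sq_nonneg u.2.1, sq_nonneg u.2.2]
  ext <;> simp [h1, h2, h3]

theorem nrm3_nonneg (u : V3) : 0 ≤ nrm3 u := le_max_of_le_left (abs_nonneg _)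

theorem nrm3_sq_le (u : V3) : nrm3 u ^ 2 ≤ n2 u := by
  rw [n2_eq]
  unfold nrm3
  rcases max_choice |u.1| (max |u.2.1| |u.2.2|) with h | h
  · rw [h, sq_abs]; nlinarith [sq_nonneg u.2.1, sq_nonneg u.2.2]
  · rw [h]
    rcases max_choice |u.2.1| |u.2.2| with h' | h'
    · rw [h', sq_abs]; nlinarith [sq_nonneg u.1, sq_nonneg u.2.2]
    · rw [h', sq_abs]; nlinarith [sq_nonneg u.1, sq_nonneg u.2.1]

theorem cs (u w : V3) : dot3 u w ^ 2 ≤ n2 u * n2 w := by
  rw [n2_eq, n2_eq]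
  simp only [dot3]
  nlinarith [sq_nonneg (u.1 * w.2.1 - u.2.1 * w.1), sq_nonneg (u.1 * w.2.2 - u.2.2 * w.1),
    sq_nonneg (u.2.1 * w.2.2 - u.2.2 * w.2.1)]

theorem hadamard (x y z : V3) : det3 x y z ^ 2 ≤ n2 x * n2 y * n2 z := by
  have h1 : det3 x y z = dot3 x (y.2.1 * z.2.2 - y.2.2 * z.2.1,
      y.2.2 * z.1 - y.1 * z.2.2, y.1 * z.2.1 - y.2.1 * z.1) := by
    simp only [det3, dot3]; ring
  have h2 := cs x (y.2.1 * z.2.2 - y.2.2 * z.2.1,
      y.2.2 * z.1 - y.1 * z.2.2, y.1 * z.2.1 - y.2.1 * z.1)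
  have h3 : n2 ((y.2.1 * z.2.2 - y.2.2 * z.2.1,
      y.2.2 * z.1 - y.1 * z.2.2, y.1 * z.2.1 - y.2.1 * z.1) : V3) = n2 y * n2 z -
      dot3 y z ^ 2 := by
    simp only [n2, dot3]; ring
  rw [h1]
  rw [h3] at h2
  nlinarith [n2_nonneg x, mul_nonneg (n2_nonneg x) (sq_nonneg (dot3 y z))]

theorem det_ap (a b c : V3) (p q r : ℝ × ℝ) :
    det3 (ap3 a b c p) (ap3 a b c q) (ap3 a b c r) = det3 a b c * cr (q - p) (r - p) := by
  simp only [det3, ap3, lin, cr, Prod.fst_sub, Prod.snd_sub]; ring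

theorem ap_ne_zero {a b c : V3} (h : det3 a b c ≠ 0) (p : ℝ × ℝ) : ap3 a b c p ≠ 0 := by
  intro h0
  apply h
  have h1 : lin a p = 0 := congrArg Prod.fst h0
  have h2 : lin b p = 0 := congrArg (fun x => x.2.1) h0
  have h3 : lin c p = 0 := congrArg (fun x => x.2.2) h0
  have : det3 a b c = lin a p * (b.1 * c.2.1 - b.2.1 * c.1) -
      lin b p * (a.1 * c.2.1 - a.2.1 * c.1) + lin c p * (a.1 * b.2.1 - a.2.1 * b.1) := by
    simp only [det3, lin]; ring
  rw [this, h1, h2, h3]; ring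

/-- the row `w^T A` -/
def rw3 (w a b c : V3) : V3 := w.1 • a + w.2.1 • b + w.2.2 • c

/-- the perturbed rows -/
noncomputable def pt (w a b c : V3) (t : ℝ) (x : V3) : V3 := x + (9 * t / n2 w) • rw3 w a b c

theorem lin_rw (w a b c : V3) (p : ℝ × ℝ) : lin (rw3 w a b c) p = dot3 w (ap3 a b c p) := by
  simp only [lin, rw3, dot3, ap3, Prod.fst_add, Prod.snd_add, Prod.smul_fst, Prod.smul_snd,
    smul_eq_mul]; ring

theorem lin_pt (w a b c : V3) (t : ℝ) (x : V3) (p : ℝ × ℝ) :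
    lin (pt w a b c t x) p = lin x p + 9 * t / n2 w * dot3 w (ap3 a b c p) := by
  rw [← lin_rw]
  simp only [lin, pt, Prod.fst_add, Prod.snd_add, Prod.smul_fst, Prod.smul_snd,
    smul_eq_mul]; ring

theorem det_pt {w : V3} (hw : w ≠ 0) (a b c : V3) :
    det3 (pt w a b c w.1 a) (pt w a b c w.2.1 b) (pt w a b c w.2.2 c) = 10 * det3 a b c := by
  have h := (n2_pos hw).ne'
  have h1 : det3 (pt w a b c w.1 a) (pt w a b c w.2.1 b) (pt w a b c w.2.2 c) =
      det3 a b c * (1 + 9 * (w.1 * w.1 + w.2.1 * w.2.1 + w.2.2 * w.2.2) / n2 w) := by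
    simp only [det3, pt, rw3, Prod.fst_add, Prod.snd_add, Prod.smul_fst, Prod.smul_snd,
      smul_eq_mul]
    ring
  rw [h1]
  have h2 : w.1 * w.1 + w.2.1 * w.2.1 + w.2.2 * w.2.2 = n2 w := by rw [n2_eq]; ring
  rw [h2]
  field_simp
  norm_num

theorem n2_pt {w : V3} (hw : w ≠ 0) (a b c : V3) (p : ℝ × ℝ) :
    n2 (ap3 (pt w a b c w.1 a) (pt w a b c w.2.1 b) (pt w a b c w.2.2 c) p) =
      n2 (ap3 a b c p) + 99 * (dot3 w (ap3 a b c p) ^ 2 / n2 w) := by
  have h := (n2_pos hw).ne'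
  rw [n2_eq]
  simp only [ap3, lin_pt]
  rw [n2_eq (lin a p, lin b p, lin c p)]
  have e : dot3 w (lin a p, lin b p, lin c p) =
      w.1 * lin a p + w.2.1 * lin b p + w.2.2 * lin c p := rfl
  set D := dot3 w (lin a p, lin b p, lin c p) with hD
  have h2 : w.1 ^ 2 + w.2.1 ^ 2 + w.2.2 ^ 2 = n2 w := by rw [n2_eq]
  have h3 : (lin a p + 9 * w.1 / n2 w * D) ^ 2 + (lin b p + 9 * w.2.1 / n2 w * D) ^ 2 +
      (lin c p + 9 * w.2.2 / n2 w * D) ^ 2 =
      lin a p ^ 2 + lin b p ^ 2 + lin c p ^ 2 +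
      18 * D / n2 w * (w.1 * lin a p + w.2.1 * lin b p + w.2.2 * lin c p) +
      81 * D ^ 2 / n2 w ^ 2 * (w.1 ^ 2 + w.2.1 ^ 2 + w.2.2 ^ 2) := by ring
  rw [h3, ← e, h2]
  field_simp
  ring

/-- the potential -/
noncomputable def Phi (X : Finset (ℝ × ℝ)) (a b c : V3) : ℝ :=
  ∑ p ∈ X, Real.log (n2 (ap3 a b c p)) - X.card / 3 * Real.log (det3 a b c ^ 2)

theorem log_triple {a b c : V3} (h : det3 a b c ≠ 0) {p q r : ℝ × ℝ}
    (hc : cr (q - p) (r - p) ≠ 0) :
    Real.log (det3 a b c ^ 2) + Real.log (cr (q - p) (r - p) ^ 2) ≤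
      Real.log (n2 (ap3 a b c p)) + Real.log (n2 (ap3 a b c q)) +
        Real.log (n2 (ap3 a b c r)) := by
  have h1 := n2_pos (ap_ne_zero h p)
  have h2 := n2_pos (ap_ne_zero h q)
  have h3 := n2_pos (ap_ne_zero h r)
  rw [← Real.log_mul (by positivity) (by positivity), ← Real.log_mul h1.ne' h2.ne',
    ← Real.log_mul (by positivity) h3.ne']
  apply Real.log_le_log (by positivity)
  rw [← mul_pow, ← det_ap]
  exact hadamard _ _ _

theorem Phi_lower {X : Finset (ℝ × ℝ)} (hgp : GP (X : Set (ℝ × ℝ))) (hN : 3 ≤ X.card) :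
    ∃ C : ℝ, ∀ a b c : V3, det3 a b c ≠ 0 → C ≤ Phi X a b c := by
  classical
  obtain ⟨n, hn⟩ : ∃ n, X.card = n + 3 := ⟨X.card - 3, by omega⟩
  let e : Fin (n + 3) ≃ X := (X.equivFinOfCardEq hn).symm
  let x : Fin (n + 3) → ℝ × ℝ := fun i => (e i : ℝ × ℝ)
  have hx : ∀ i, x i ∈ X := fun i => (e i).2
  have hinj : ∀ i j, x i = x j → i = j := fun i j h => e.injective (Subtype.ext h)
  have hsum : ∀ f : ℝ × ℝ → ℝ, ∑ p ∈ X, f p = ∑ i, f (x i) := by
    intro f
    rw [← Finset.sum_coe_sort X f]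
    exact (Equiv.sum_comp e (fun p : X => f p)).symm
  have hshift : ∀ (f : Fin (n + 3) → ℝ) (k : Fin (n + 3)), ∑ i, f (i + k) = ∑ i, f i :=
    fun f k => Equiv.sum_comp (Equiv.addRight k) f
  have h01 : (1 : Fin (n + 3)) ≠ 0 := by
    intro h
    have := congrArg Fin.val h
    simp at this
  have h02 : (2 : Fin (n + 3)) ≠ 0 := by
    intro h
    have := congrArg Fin.val h
    simp [Nat.mod_eq_of_lt (show 2 < n + 3 by omega)] at this
  have h12 : (1 : Fin (n + 3)) ≠ 2 := by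
    intro h
    have := congrArg Fin.val h
    simp [Nat.mod_eq_of_lt (show 2 < n + 3 by omega)] at this
  have hcr : ∀ i, cr (x (i + 1) - x i) (x (i + 2) - x i) ≠ 0 := by
    intro i
    apply hgp _ (hx i) _ (hx _) _ (hx _)
    · intro h
      have := hinj _ _ h
      exact h01 (left_eq_add.1 this)
    · intro h
      have := hinj _ _ h
      exact h02 (left_eq_add.1 this)
    · intro h
      have := hinj _ _ h
      exact h12 (add_left_cancel this)
  refine ⟨(∑ i, Real.log (cr (x (i + 1) - x i) (x (i + 2) - x i) ^ 2)) / 3, ?_⟩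
  intro a b c h
  unfold Phi
  rw [hsum, hn]
  have key : ∑ i : Fin (n + 3), (Real.log (det3 a b c ^ 2) +
      Real.log (cr (x (i + 1) - x i) (x (i + 2) - x i) ^ 2)) ≤
      ∑ i : Fin (n + 3), (Real.log (n2 (ap3 a b c (x i))) +
        Real.log (n2 (ap3 a b c (x (i + 1)))) + Real.log (n2 (ap3 a b c (x (i + 2))))) :=
    Finset.sum_le_sum fun i _ => log_triple h (hcr i)
  rw [Finset.sum_add_distrib, Finset.sum_add_distrib, Finset.sum_add_distrib,
    hshift (fun i => Real.log (n2 (ap3 a b c (x i)))) 1,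
    hshift (fun i => Real.log (n2 (ap3 a b c (x i)))) 2] at key
  simp only [Finset.sum_const, Finset.card_univ, Fintype.card_fin, nsmul_eq_mul] at key
  push_cast at key ⊢
  linarith

theorem log100 : (4 : ℝ) ≤ Real.log 100 := by
  rw [Real.le_log_iff_exp_le (by norm_num)]
  have h1 := Real.exp_one_lt_d9
  have h2 : Real.exp 4 = Real.exp 1 ^ 4 := by
    rw [← Real.exp_nat_mul]; norm_num
  rw [h2]
  calc Real.exp 1 ^ 4 ≤ 2.7182818286 ^ 4 := by
        apply pow_le_pow_left₀ (Real.exp_pos 1).le h1.le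
    _ ≤ 100 := by norm_num

end Iso

open W Iso in
/-- **Weak radial isotropy**: after a projective change of coordinates no plane through the
origin almost contains three quarters of the points. -/
theorem iso_fin (X : Finset (ℝ × ℝ)) (hgp : W.GP (X : Set (ℝ × ℝ))) (hN : 3 ≤ X.card) :
    ∃ a b c : ℝ × ℝ × ℝ, W.det3 a b c ≠ 0 ∧ ∀ w : ℝ × ℝ × ℝ, w ≠ 0 →
      X.card ≤ 4 * (X.filter fun p => W.nrm3 w * W.nrm3 (W.ap3 a b c p) ≤
        100 * |W.dot3 w (W.ap3 a b c p)|).card := by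
  classical
  obtain ⟨C, hC⟩ := Phi_lower hgp hN
  let S : Set ℝ := {t | ∃ a b c : V3, det3 a b c ≠ 0 ∧ Phi X a b c = t}
  have hSne : S.Nonempty := by
    refine ⟨_, (1, 0, 0), (0, 1, 0), (0, 0, 1), ?_, rfl⟩
    simp [det3]
  have hSbd : BddBelow S := ⟨C, by rintro t ⟨a, b, c, h, rfl⟩; exact hC a b c h⟩
  obtain ⟨t, ⟨a, b, c, hdet, rfl⟩, ht⟩ := exists_lt_of_csInf_lt hSne
    (show sInf S < sInf S + 1 / 10 by linarith)
  refine ⟨a, b, c, hdet, ?_⟩
  intro w hw
  have hdet' : det3 (pt w a b c w.1 a) (pt w a b c w.2.1 b) (pt w a b c w.2.2 c) ≠ 0 := by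
    rw [det_pt hw]; exact mul_ne_zero (by norm_num) hdet
  have h1 : sInf S ≤ Phi X (pt w a b c w.1 a) (pt w a b c w.2.1 b) (pt w a b c w.2.2 c) :=
    csInf_le hSbd ⟨_, _, _, hdet', rfl⟩
  have hs := n2_pos hw
  -- the difference of the potentials
  have h2 : Phi X (pt w a b c w.1 a) (pt w a b c w.2.1 b) (pt w a b c w.2.2 c) =
      Phi X a b c + ∑ p ∈ X, Real.log (1 + 99 * (dot3 w (ap3 a b c p) ^ 2 /
        (n2 w * n2 (ap3 a b c p)))) - X.card / 3 * Real.log 100 := by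
    unfold Phi
    rw [det_pt hw, mul_pow, Real.log_mul (by norm_num) (by positivity)]
    have h3 : ∑ p ∈ X, Real.log (n2 (ap3 (pt w a b c w.1 a) (pt w a b c w.2.1 b)
        (pt w a b c w.2.2 c) p)) = ∑ p ∈ X, (Real.log (n2 (ap3 a b c p)) +
        Real.log (1 + 99 * (dot3 w (ap3 a b c p) ^ 2 / (n2 w * n2 (ap3 a b c p))))) := by
      apply Finset.sum_congr rfl
      intro p _
      have h4 := n2_pos (ap_ne_zero hdet p)
      rw [n2_pt hw, ← Real.log_mul h4.ne' (by positivity)]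
      congr 1
      field_simp
    rw [h3, Finset.sum_add_distrib]
    norm_num
    ring
  -- the good points
  set G := X.filter fun p => W.nrm3 w * W.nrm3 (W.ap3 a b c p) ≤
        100 * |W.dot3 w (W.ap3 a b c p)| with hG
  have h5 : ∑ p ∈ X, Real.log (1 + 99 * (dot3 w (ap3 a b c p) ^ 2 /
      (n2 w * n2 (ap3 a b c p)))) ≤ G.card * Real.log 100 + X.card * (99 / 10000) := by
    have h6 : ∀ p ∈ X, Real.log (1 + 99 * (dot3 w (ap3 a b c p) ^ 2 /
        (n2 w * n2 (ap3 a b c p)))) ≤ (if p ∈ G then Real.log 100 else 0) + 99 / 10000 := by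
      intro p hp
      have h4 := n2_pos (ap_ne_zero hdet p)
      have hden : 0 < n2 w * n2 (ap3 a b c p) := by positivity
      by_cases hpG : p ∈ G
      · rw [if_pos hpG]
        have h7 : dot3 w (ap3 a b c p) ^ 2 / (n2 w * n2 (ap3 a b c p)) ≤ 1 := by
          rw [div_le_one hden]; exact cs _ _
        have h8 : Real.log (1 + 99 * (dot3 w (ap3 a b c p) ^ 2 /
            (n2 w * n2 (ap3 a b c p)))) ≤ Real.log 100 := by
          apply Real.log_le_log (by positivity)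
          linarith
        linarith
      · rw [if_neg hpG, zero_add]
        have h7 : dot3 w (ap3 a b c p) ^ 2 / (n2 w * n2 (ap3 a b c p)) ≤ 1 / 10000 := by
          rw [div_le_div_iff₀ hden (by norm_num)]
          by_contra hlt
          push Not at hlt
          apply hpG
          rw [hG, Finset.mem_filter]
          refine ⟨hp, ?_⟩
          apply abs_le_of_sq_le_sq' _ (by positivity) |>.2
          have h9 := nrm3_sq_le w
          have h10 := nrm3_sq_le (ap3 a b c p)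
          have h11 : (nrm3 w * nrm3 (ap3 a b c p)) ^ 2 ≤ n2 w * n2 (ap3 a b c p) := by
            rw [mul_pow]
            exact mul_le_mul h9 h10 (sq_nonneg _) hs.le
          rw [mul_pow 100, sq_abs]
          linarith
        have h8 := Real.log_le_sub_one_of_pos (show 0 < 1 + 99 * (dot3 w (ap3 a b c p) ^ 2 /
            (n2 w * n2 (ap3 a b c p))) by positivity)
        linarith
    refine (Finset.sum_le_sum h6).trans ?_
    rw [Finset.sum_add_distrib, Finset.sum_ite_mem, Finset.sum_const, Finset.sum_const,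
      nsmul_eq_mul, nsmul_eq_mul]
    have h7 : X ∩ G = G := Finset.inter_eq_right.2 (Finset.filter_subset _ _)
    rw [h7]
  have h6 := log100
  have h7 : (3 : ℝ) ≤ X.card := by exact_mod_cast hN
  have h8 : (X.card : ℝ) / 3 * Real.log 100 ≤
      G.card * Real.log 100 + X.card * (99 / 10000) + 1 / 10 := by linarith
  have h9 : (X.card : ℝ) ≤ 4 * G.card := by
    by_contra hlt
    push Not at hlt
    have h10 : ((X.card : ℝ) / 3 - G.card) * Real.log 100 ≥ ((X.card : ℝ) / 3 - G.card) * 4 := by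
      apply mul_le_mul_of_nonneg_left h6
      linarith
    nlinarith
  exact_mod_cast h9

end Pool.Agent.Lib.MP_8bcb9d_co
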