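import Mathlib
import Pool.Agent.Lib.MP_8bcb9d_co.H.H2
import Pool.Agent.Lib.MP_8bcb9d_co.H.H3
import Pool.Agent.Lib.MP_8bcb9d_co.H.H4
import Pool.Agent.Lib.MP_8bcb9d_co.H.H5
import Pool.Agent.Lib.MP_8bcb9d_co.H.H6
import Pool.Agent.Lib.MP_8bcb9d_co.H.IsoFin

/-!
# The world of the hyperreals
-/

set_option autoImplicit false

namespace Pool.Agent.Lib.MP_8bcb9d_co.H

open Filter Hyperreal

/-- the triple of a sequence of triples -/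
noncomputable def pt3 (f : ℕ → ℝ × ℝ × ℝ) : ℝ* × ℝ* × ℝ* :=
  (ofSeq fun n => (f n).1, ofSeq fun n => (f n).2.1, ofSeq fun n => (f n).2.2)

theorem exists_pt3 (p : ℝ* × ℝ* × ℝ*) : ∃ f : ℕ → ℝ × ℝ × ℝ, p = pt3 f := by
  obtain ⟨a, ha⟩ := exists_ofSeq p.1
  obtain ⟨b, hb⟩ := exists_ofSeq p.2.1
  obtain ⟨c, hc⟩ := exists_ofSeq p.2.2
  exact ⟨fun n => (a n, b n, c n), Prod.ext ha.symm (Prod.ext hb.symm hc.symm)⟩

theorem nrm3_pt3 (f : ℕ → ℝ × ℝ × ℝ) : W.nrm3 (pt3 f) = ofSeq (fun n => W.nrm3 (f n)) := by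
  unfold W.nrm3 pt3
  rw [ofSeq_max, ofSeq_max, ofSeq_abs, ofSeq_abs, ofSeq_abs]

theorem ap3_pt (a b c : ℕ → ℝ × ℝ × ℝ) (f : ℕ → ℝ × ℝ) :
    W.ap3 (pt3 a) (pt3 b) (pt3 c) (pt f) = pt3 (fun n => W.ap3 (a n) (b n) (c n) (f n)) := rfl

theorem dot3_pt (a b : ℕ → ℝ × ℝ × ℝ) :
    W.dot3 (pt3 a) (pt3 b) = ofSeq (fun n => W.dot3 (a n) (b n)) := rfl

theorem det3_pt (a b c : ℕ → ℝ × ℝ × ℝ) :
    W.det3 (pt3 a) (pt3 b) (pt3 c) = ofSeq (fun n => W.det3 (a n) (b n) (c n)) := rfl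

open Classical in
theorem II_iso (X : Set (ℝ* × ℝ*)) (hX : X ∈ II) (hinf : X.Infinite) (hgp : W.GP X) :
    ∃ a b c : ℝ* × ℝ* × ℝ*, W.det3 a b c ≠ 0 ∧ ∀ w : ℝ* × ℝ* × ℝ*, w ≠ 0 →
      {p ∈ X | W.nrm3 w * W.nrm3 (W.ap3 a b c p) ≤ 100 * |W.dot3 w (W.ap3 a b c p)|}.Infinite := by
  obtain ⟨S, rfl⟩ := hX
  have h1 : ∀ᶠ n in (UH : Filter ℕ), ∃ z : (ℝ × ℝ × ℝ) × (ℝ × ℝ × ℝ) × (ℝ × ℝ × ℝ),
      W.det3 z.1 z.2.1 z.2.2 ≠ 0 ∧ ∀ w : ℝ × ℝ × ℝ, w ≠ 0 →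
      (S n).card ≤ 4 * ((S n).filter fun p => W.nrm3 w * W.nrm3 (W.ap3 z.1 z.2.1 z.2.2 p) ≤
        100 * |W.dot3 w (W.ap3 z.1 z.2.1 z.2.2 p)|).card := by
    filter_upwards [gp_transfer hgp, card_of_infinite hinf 3] with n h1 h2
    obtain ⟨a, b, c, h⟩ := iso_fin (S n) h1 h2
    exact ⟨(a, b, c), h⟩
  obtain ⟨f, hf⟩ := exists_seq' h1
  refine ⟨pt3 fun n => (f n).1, pt3 fun n => (f n).2.1, pt3 fun n => (f n).2.2, ?_, ?_⟩
  · rw [det3_pt, ← ofSeq_zero, Ne, ofSeq_eq, ← Ultrafilter.eventually_not]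
    exact hf.mono fun n hn => hn.1
  · intro w hw
    obtain ⟨w, rfl⟩ := exists_pt3 w
    have hw' : ∀ᶠ n in (UH : Filter ℕ), w n ≠ 0 := by
      rw [Ultrafilter.eventually_not]
      intro hcon
      apply hw
      have e1 : ofSeq (fun n => (w n).1) = ofSeq (fun _ => (0 : ℝ)) :=
        ofSeq_eq.2 (hcon.mono fun n hn => by rw [hn]; rfl)
      have e2 : ofSeq (fun n => (w n).2.1) = ofSeq (fun _ => (0 : ℝ)) :=
        ofSeq_eq.2 (hcon.mono fun n hn => by rw [hn]; rfl)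
      have e3 : ofSeq (fun n => (w n).2.2) = ofSeq (fun _ => (0 : ℝ)) :=
        ofSeq_eq.2 (hcon.mono fun n hn => by rw [hn]; rfl)
      exact Prod.ext e1 (Prod.ext e2 e3)
    let T : ℕ → Finset (ℝ × ℝ) := fun n => (S n).filter fun p =>
      W.nrm3 (w n) * W.nrm3 (W.ap3 (f n).1 (f n).2.1 (f n).2.2 p) ≤
        100 * |W.dot3 (w n) (W.ap3 (f n).1 (f n).2.1 (f n).2.2 p)|
    have hset : {p ∈ ist S | W.nrm3 (pt3 w) * W.nrm3 (W.ap3 (pt3 fun n => (f n).1)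
        (pt3 fun n => (f n).2.1) (pt3 fun n => (f n).2.2) p) ≤
        100 * |W.dot3 (pt3 w) (W.ap3 (pt3 fun n => (f n).1) (pt3 fun n => (f n).2.1)
          (pt3 fun n => (f n).2.2) p)|} = ist T := by
      apply ist_ext
      intro g
      have h100 : (100 : ℝ*) = ofSeq (fun _ => (100 : ℝ)) := rfl
      have h2 : (W.nrm3 (pt3 w) * W.nrm3 (W.ap3 (pt3 fun n => (f n).1)
          (pt3 fun n => (f n).2.1) (pt3 fun n => (f n).2.2) (pt g)) ≤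
          100 * |W.dot3 (pt3 w) (W.ap3 (pt3 fun n => (f n).1) (pt3 fun n => (f n).2.1)
            (pt3 fun n => (f n).2.2) (pt g))|) ↔ ∀ᶠ n in (UH : Filter ℕ),
          W.nrm3 (w n) * W.nrm3 (W.ap3 (f n).1 (f n).2.1 (f n).2.2 (g n)) ≤
            100 * |W.dot3 (w n) (W.ap3 (f n).1 (f n).2.1 (f n).2.2 (g n))| := by
        rw [ap3_pt, nrm3_pt3, nrm3_pt3, dot3_pt, ← ofSeq_abs, h100, ← ofSeq_mul, ← ofSeq_mul,
          ofSeq_le]
      simp only [Set.mem_ofPred_eq, mem_ist, h2, T, Finset.mem_filter]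
      rw [← eventually_and]
    rw [hset]
    apply infinite_of_card
    intro m
    filter_upwards [hf, hw', card_of_infinite hinf (4 * m)] with n h1 h2 h3
    have h4 := h1.2 (w n) h2
    have h5 : (S n).card ≤ 4 * (T n).card := h4
    omega

/-- the world of the hyperreals -/
noncomputable def world (K : ℕ)
    (pf : ∀ X : ℕ → Finset E, (∀ n, KSet K (X n)) → (pos X).Finite) : W.World ℝ* GG where
  v := vv
  v_mul := vv_mul
  v_le := vv_le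
  v_surj := vv_surj
  I := II
  I_half := II_half
  I_union := II_union
  I_diff := II_diff
  I_pj := II_pj
  argmin := II_argmin
  bridge := II_bridge
  hull := II_hull
  sep := II_sep
  sat := II_sat
  iso := II_iso
  K := K
  WF := II_WF pf

end Pool.Agent.Lib.MP_8bcb9d_co.H
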