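import Mathlib
import Pool.Agent.Lib.MP_8bcb9d_co.H.H7

/-!
# Final assembly
-/

set_option autoImplicit false

namespace Pool.Agent.Lib.MP_8bcb9d_co.H

open Filter Hyperreal

theorem tri_back {a b z w : ℕ → ℝ × ℝ} (h : ∀ᶠ n in (UH : Filter ℕ), w n ∈ W.Tri (a n) (b n) (z n)) :
    pt w ∈ W.Tri (pt a) (pt b) (pt z) := by
  have h1 : ∀ᶠ n in (UH : Filter ℕ), ∃ x : ℝ × ℝ × ℝ, 0 ≤ x.1 ∧ 0 ≤ x.2.1 ∧ 0 ≤ x.2.2 ∧
      x.1 + x.2.1 + x.2.2 = 1 ∧ w n = x.1 • a n + x.2.1 • b n + x.2.2 • z n := by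
    filter_upwards [h] with n hn
    obtain ⟨x, y, t, hx⟩ := hn
    exact ⟨(x, y, t), hx⟩
  obtain ⟨f, hf⟩ := exists_seq' h1
  refine ⟨ofSeq fun n => (f n).1, ofSeq fun n => (f n).2.1, ofSeq fun n => (f n).2.2, ?_, ?_, ?_, ?_,
    ?_⟩
  · rw [← ofSeq_zero, ofSeq_le]
    exact hf.mono fun n hn => hn.1
  · rw [← ofSeq_zero, ofSeq_le]
    exact hf.mono fun n hn => hn.2.1
  · rw [← ofSeq_zero, ofSeq_le]
    exact hf.mono fun n hn => hn.2.2.1
  · rw [← ofSeq_one, ← ofSeq_add, ← ofSeq_add, ofSeq_eq]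
    exact hf.mono fun n hn => hn.2.2.2.1
  · have h2 : (ofSeq fun n => (f n).1) • pt a + (ofSeq fun n => (f n).2.1) • pt b +
        (ofSeq fun n => (f n).2.2) • pt z =
        pt (fun n => (f n).1 • a n + (f n).2.1 • b n + (f n).2.2 • z n) := rfl
    rw [h2, pt_eq]
    exact hf.mono fun n hn => hn.2.2.2.2

open Classical in
theorem kb_ist {K : ℕ} {S : ℕ → Finset (ℝ × ℝ)}
    (h : ∀ n, W.KB K ((S n : Finset (ℝ × ℝ)) : Set (ℝ × ℝ))) : W.KB K (ist S) := by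
  constructor
  · rintro p ⟨a, ha, rfl⟩ q ⟨b, hb, rfl⟩ r ⟨c, hc, rfl⟩ hpq hpr hqr
    rw [pt_sub, pt_sub, cr_pt, ← ofSeq_zero, Ne, ofSeq_eq, ← Ultrafilter.eventually_not]
    filter_upwards [ha, hb, hc, pt_ne.1 hpq, pt_ne.1 hpr, pt_ne.1 hqr] with n h1 h2 h3 h4 h5 h6
    exact (h n).gp _ h1 _ h2 _ h3 h4 h5 h6
  · rintro p ⟨a, ha, rfl⟩ q ⟨b, hb, rfl⟩ hpq
    let L : ℕ → Finset (ℝ × ℝ) := fun n =>
      (S n).filter fun z => z ∈ W.Lnk ((S n : Finset (ℝ × ℝ)) : Set (ℝ × ℝ)) (a n) (b n)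
    have hL : ∀ᶠ n in (UH : Filter ℕ), (L n).card ≤ K := by
      filter_upwards [ha, hb, pt_ne.1 hpq] with n h1 h2 h3
      have h4 := (h n).deg _ h1 _ h2 h3
      have h5 : W.Lnk ((S n : Finset (ℝ × ℝ)) : Set (ℝ × ℝ)) (a n) (b n) =
          (L n : Set (ℝ × ℝ)) := by
        ext z
        simp only [L, Finset.coe_filter]
        constructor
        · intro hz
          exact ⟨hz.1, hz⟩
        · intro hz
          exact hz.2
      rw [h5, Set.encard_coe_eq_coe_finsetCard] at h4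
      exact_mod_cast h4
    refine le_trans (Set.encard_le_encard ?_) (encard_of_card_le hL)
    rintro z ⟨hz, hza, hzb, hzt⟩
    obtain ⟨g, hg, rfl⟩ := hz
    rw [mem_ist]
    by_contra hcon
    rw [← Ultrafilter.eventually_not] at hcon
    have h1 : ∀ᶠ n in (UH : Filter ℕ), ∃ w, w ∈ S n ∧ w ∈ W.Tri (a n) (b n) (g n) ∧
        w ≠ a n ∧ w ≠ b n ∧ w ≠ g n := by
      filter_upwards [hcon, hg, pt_ne.1 hza, pt_ne.1 hzb] with n h1 h2 h3 h4
      by_contra h5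
      push Not at h5
      apply h1
      refine Finset.mem_filter.2 ⟨h2, h2, h3, h4, ?_⟩
      intro w hw hwt
      by_contra h6
      push Not at h6
      exact h6.2.2 (h5 w hw hwt h6.1 h6.2.1)
    obtain ⟨w, hw⟩ := exists_seq h1
    rcases hzt (pt w) (mem_ist.2 (hw.mono fun n hn => hn.1))
      (tri_back (hw.mono fun n hn => hn.2.1)) with h2 | h2 | h2
    · exact pt_ne.2 (hw.mono fun n hn => hn.2.2.1) h2
    · exact pt_ne.2 (hw.mono fun n hn => hn.2.2.2.1) h2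
    · exact pt_ne.2 (hw.mono fun n hn => hn.2.2.2.2) h2

/-- from the Euclidean plane to `ℝ × ℝ` -/
def rr (v : E) : ℝ × ℝ := (v 0, v 1)

theorem rr_inj : Function.Injective rr := by
  intro v w h
  exact ext2 (congrArg Prod.fst h) (congrArg Prod.snd h)

open Classical in
theorem kb_of_kset {K : ℕ} {X : Finset E} (h : KSet K X) :
    W.KB K ((X.image rr : Finset (ℝ × ℝ)) : Set (ℝ × ℝ)) := by
  constructor
  · intro a' ha' b' hb' c' hc' hab hac hbc
    rw [Finset.mem_coe] at ha' hb' hc'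
    obtain ⟨a, ha, rfl⟩ := Finset.mem_image.1 ha'
    obtain ⟨b, hb, rfl⟩ := Finset.mem_image.1 hb'
    obtain ⟨c, hc, rfl⟩ := Finset.mem_image.1 hc'
    have h1 := cr_ne_zero h.gp ha hb hc (fun h => hab (by rw [h])) (fun h => hac (by rw [h]))
      (fun h => hbc (by rw [h]))
    exact h1
  · intro a' ha' b' hb' hab
    rw [Finset.mem_coe] at ha' hb'
    obtain ⟨a, ha, rfl⟩ := Finset.mem_image.1 ha'
    obtain ⟨b, hb, rfl⟩ := Finset.mem_image.1 hb'
    have hab' : a ≠ b := fun h => hab (by rw [h])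
    have h1 := h.deg a ha b hb hab'
    have hsub : W.Lnk ((X.image rr : Finset (ℝ × ℝ)) : Set (ℝ × ℝ)) (rr a) (rr b) ⊆
        rr '' (Deg X a b) := by
      rintro z' ⟨hz', hza, hzb, hz⟩
      rw [Finset.mem_coe] at hz'
      obtain ⟨z, hzX, rfl⟩ := Finset.mem_image.1 hz'
      refine ⟨z, ⟨hzX, fun h => hza (by rw [h]), fun h => hzb (by rw [h]), ?_⟩, rfl⟩
      intro w hw hwt
      obtain ⟨x, y, t, hx, hy, ht, hsum, hwe⟩ := mem_triangle hwt
      have h2 : rr w ∈ W.Tri (rr a) (rr b) (rr z) := by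
        refine ⟨x, y, t, hx, hy, ht, hsum, ?_⟩
        rw [hwe]
        apply Prod.ext <;> simp [rr]
      rcases hz (rr w) (Finset.mem_coe.2 (Finset.mem_image_of_mem rr hw)) h2 with h3 | h3 | h3
      · exact Or.inl (rr_inj h3)
      · exact Or.inr (Or.inl (rr_inj h3))
      · exact Or.inr (Or.inr (rr_inj h3))
    have h2 := (Deg.finite X a b).cast_ncard_eq
    calc (W.Lnk ((X.image rr : Finset (ℝ × ℝ)) : Set (ℝ × ℝ)) (rr a) (rr b)).encard
        ≤ (rr '' (Deg X a b)).encard := Set.encard_le_encard hsub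
      _ ≤ (Deg X a b).encard := Set.encard_image_le _ _
      _ = ((Deg X a b).ncard : ℕ∞) := h2.symm
      _ ≤ K := by exact_mod_cast h1

open Classical in
/-- the final assembly -/
theorem assembly (K : ℕ) (pf : ∀ X : ℕ → Finset E, (∀ n, KSet K (X n)) → (pos X).Finite)
    (wf : ∀ (w : W.World ℝ* GG) (X : Set (ℝ* × ℝ*)), X ∈ w.I → W.KB w.K X → X.Finite) :
    ∃ N₀ : ℕ, ∀ X : Finset E, KSet K X → X.card < N₀ := by
  by_contra hcon
  push Not at hcon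
  choose X hX hcard using hcon
  have hkb : W.KB K (ist fun n => (X n).image rr) := kb_ist fun n => kb_of_kset (hX n)
  have hfin := wf (world K pf) (ist fun n => (X n).image rr) ⟨_, rfl⟩ hkb
  refine infinite_of_card (S := fun n => (X n).image rr) ?_ hfin
  intro m
  have h1 : ∀ᶠ n in (UH : Filter ℕ), m ≤ n :=
    (eventually_ge_atTop m).filter_mono Nat.hyperfilter_le_atTop
  filter_upwards [h1] with n hn
  rw [Finset.card_image_of_injective _ rr_inj]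
  exact hn.trans (hcard n)

theorem final (pf : ∀ (K : ℕ) (X : ℕ → Finset E), (∀ n, KSet K (X n)) → (pos X).Finite)
    (wf : ∀ (w : W.World ℝ* GG) (X : Set (ℝ* × ℝ*)), X ∈ w.I → W.KB w.K X → X.Finite) :
    ∀ M : ℕ, ∃ N₀ : ℕ, ∀ X : Finset (EuclideanSpace ℝ (Fin 2)),
      N₀ ≤ X.card →
      (∀ a ∈ X, ∀ b ∈ X, ∀ c ∈ X, a ≠ b → a ≠ c → b ≠ c →
        ¬ Collinear ℝ ({a, b, c} : Set (EuclideanSpace ℝ (Fin 2)))) →
      ∃ x ∈ X, ∃ y ∈ X, x ≠ y ∧
        M ≤ {z : EuclideanSpace ℝ (Fin 2) | z ∈ X ∧ z ≠ x ∧ z ≠ y ∧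
              ∀ w ∈ X, w ∈ convexHull ℝ ({x, y, z} : Set (EuclideanSpace ℝ (Fin 2))) →
                w = x ∨ w = y ∨ w = z}.ncard := by
  intro M
  obtain ⟨N₀, hN⟩ := assembly M (pf M) wf
  refine ⟨N₀, fun X hX hgp => ?_⟩
  by_contra hcon
  push Not at hcon
  have hK : KSet M X := by
    refine ⟨hgp, ?_⟩
    intro x hx y hy hxy
    exact (hcon x hx y hy hxy).le
  exact absurd (hN X hK) (not_lt.2 hX)

end Pool.Agent.Lib.MP_8bcb9d_co.H
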